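import Pool.Agent.W361.Tile.Step

/-!
Colourings of the integers, convolution equations, and the first labelling.
-/

set_option autoImplicit false

namespace Pool.Agent.W361.Tile

open Finset

/-- translates of a finite set of integers -/
def shifts (T : Finset ℤ) : Set (Set ℤ) := {s | ∃ x : ℤ, s = {z | z - x ∈ T}}

theorem tl_shifts (T : Finset ℤ) (P : ℤ → Prop)
    (hP : ∀ x x' z, P x → P x' → z - x ∈ T → z - x' ∈ T → x = x') :
    Tl (shifts T) {z | ∃ x, P x ∧ z - x ∈ T} := by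
  classical
  have hc : ∀ z : ℤ, ∃ x, (∃ x', P x' ∧ z - x' ∈ T) → (P x ∧ z - x ∈ T) := by
    intro z
    by_cases h : ∃ x', P x' ∧ z - x' ∈ T
    · obtain ⟨x, hx⟩ := h
      exact ⟨x, fun _ => hx⟩
    · exact ⟨0, fun h' => absurd h' h⟩
  choose x hx using hc
  refine ⟨fun z => {z' | z' - x z ∈ T}, fun z hz => ?_⟩
  obtain ⟨h1, h2⟩ := hx z hz
  refine ⟨h2, ⟨x z, rfl⟩, fun z' hz' => ⟨x z, h1, hz'⟩, fun z' hz' => ?_⟩
  obtain ⟨h3, h4⟩ := hx z' ⟨x z, h1, hz'⟩
  have h5 : x z' = x z := hP _ _ z' h3 h1 h4 hz'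
  show {z'' | z'' - x z' ∈ T} = {z'' | z'' - x z ∈ T}
  rw [h5]

/-- greedy colouring -/
noncomputable def gcol (adj : ℕ → ℕ → Prop) : ℕ → ℕ
  | n => sInf {c | ∀ m, ∀ (_ : m < n), adj m n → gcol adj m ≠ c}

theorem gcol_spec (adj : ℕ → ℕ → Prop) (D : ℕ) (N : ℕ → Finset ℕ)
    (hN : ∀ m n, adj m n → m ∈ N n) (hD : ∀ n, (N n).card ≤ D) (n : ℕ) :
    gcol adj n ≤ D ∧ ∀ m, m < n → adj m n → gcol adj m ≠ gcol adj n := by
  classical
  set S : Set ℕ := {c | ∀ m, ∀ (_ : m < n), adj m n → gcol adj m ≠ c} with hS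
  have hn : gcol adj n = sInf S := by
    rw [gcol]
  have hcard : ((N n).image (gcol adj)).card < (range (D + 1)).card := by
    rw [card_range]
    exact lt_of_le_of_lt card_image_le (Nat.lt_succ_of_le (hD n))
  obtain ⟨c, hc1, hc2⟩ := exists_mem_notMem_of_card_lt_card hcard
  have hcS : c ∈ S := by
    intro m hm hadj heq
    exact hc2 (mem_image.2 ⟨m, hN m n hadj, heq⟩)
  refine ⟨?_, ?_⟩
  · rw [hn]
    have := Nat.sInf_le hcS
    have h2 := mem_range.1 hc1
    omega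
  · intro m hm hadj
    rw [hn]
    exact (Nat.sInf_mem ⟨c, hcS⟩) m hm hadj

theorem exists_colour (T : Finset ℤ) :
    ∃ χ : ℤ → ℕ, (∀ x, χ x < T.card * T.card + 1) ∧
      ∀ x x' τ τ' : ℤ, τ ∈ T → τ' ∈ T → τ ≠ τ' → x - x' = τ - τ' → χ x ≠ χ x' := by
  classical
  set e : ℤ ≃ ℕ := Equiv.intEquivNat with he
  set adj : ℕ → ℕ → Prop := fun m n => ∃ τ ∈ T, ∃ τ' ∈ T, τ ≠ τ' ∧ e.symm m - e.symm n = τ - τ'
    with hadj
  have hsymm : ∀ m n, adj m n → adj n m := by
    rintro m n ⟨τ, h1, τ', h2, h3, h4⟩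
    refine ⟨τ', h2, τ, h1, h3.symm, ?_⟩
    omega
  set N : ℕ → Finset ℕ := fun n => (T ×ˢ T).image (fun p => e (e.symm n + (p.1 - p.2))) with hN
  have h1 : ∀ m n, adj m n → m ∈ N n := by
    rintro m n ⟨τ, h1, τ', h2, h3, h4⟩
    rw [hN]
    refine mem_image.2 ⟨(τ, τ'), mem_product.2 ⟨h1, h2⟩, ?_⟩
    have : e.symm n + (τ - τ') = e.symm m := by omega
    show e (e.symm n + (τ - τ')) = m
    rw [this]
    exact e.apply_symm_apply m
  have h2 : ∀ n, (N n).card ≤ T.card * T.card := by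
    intro n
    rw [← card_product]
    exact card_image_le
  refine ⟨fun x => gcol adj (e x), fun x => ?_, ?_⟩
  · exact Nat.lt_succ_of_le (gcol_spec adj _ N h1 h2 (e x)).1
  · intro x x' τ τ' h3 h4 h5 h6
    have hA : adj (e x) (e x') := by
      refine ⟨τ, h3, τ', h4, h5, ?_⟩
      rw [e.symm_apply_apply, e.symm_apply_apply]
      exact h6
    have hne : e x ≠ e x' := by
      intro h
      have := e.injective h
      rw [this] at h6
      omega
    rcases lt_or_gt_of_ne hne with h | h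
    · exact (gcol_spec adj _ N h1 h2 (e x')).2 _ h hA
    · exact fun h' => (gcol_spec adj _ N h1 h2 (e x)).2 _ h (hsymm _ _ hA) h'.symm

theorem lab_int (T : Finset ℤ) (χ : ℤ → ℕ) (K : ℕ) (hK : ∀ x, χ x < K)
    (hχ : ∀ x x' τ τ' : ℤ, τ ∈ T → τ' ∈ T → τ ≠ τ' → x - x' = τ - τ' → χ x ≠ χ x') :
    Lab (shifts T) K T.card := by
  classical
  refine ⟨fun z => T.image (fun τ => χ (z - τ)), fun z => ⟨?_, ?_⟩, fun c => ?_⟩
  · apply card_image_of_injOn
    intro τ hτ τ' hτ' h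
    by_contra hne
    exact hχ (z - τ) (z - τ') τ' τ hτ' hτ (fun h => hne h.symm) (by omega) h
  · intro c hc
    obtain ⟨τ, _, rfl⟩ := mem_image.1 hc
    exact mem_range.2 (hK _)
  · have h := tl_shifts T (fun x => χ x = c) ?_
    · refine (congrArg (Tl (shifts T)) ?_).mp h
      ext z
      constructor
      · rintro ⟨x, h1, h2⟩
        refine mem_image.2 ⟨z - x, h2, ?_⟩
        rw [sub_sub_cancel]
        exact h1
      · intro hz
        obtain ⟨τ, h1, h2⟩ := mem_image.1 hz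
        refine ⟨z - τ, h2, ?_⟩
        rw [sub_sub_cancel]
        exact h1
    · intro x x' z h1 h2 h3 h4
      by_contra hne
      have h1' : χ x = c := h1
      have h2' : χ x' = c := h2
      exact hχ x x' (z - x') (z - x) h4 h3 (fun h => hne (by omega)) (by omega)
        (h1'.trans h2'.symm)

open PowerSeries in
theorem conv_pos {R : Type} [CommRing R] (T : Finset ℤ) (m : ℤ) (hm : m ∈ T)
    (hmin : ∀ τ ∈ T, m ≤ τ) (h : ℤ → R) (hneg : ∀ z, z < 0 → h z = 0) :
    ∃ f : ℤ → R, ∀ z, ∑ τ ∈ T, f (z - τ) = h z := by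
  classical
  set P : PowerSeries R := ∑ τ ∈ T, (X : PowerSeries R) ^ (τ - m).toNat with hP
  have hP0 : constantCoeff P = 1 := by
    rw [hP, map_sum, Finset.sum_eq_single m]
    · simp
    · intro τ hτ hne
      have h1 := hmin τ hτ
      have h2 : (τ - m).toNat ≠ 0 := by omega
      rw [map_pow, constantCoeff_X, zero_pow h2]
    · intro h
      exact absurd hm h
  have hPu : IsUnit P := by
    rw [PowerSeries.isUnit_iff_constantCoeff, hP0]
    exact isUnit_one
  obtain ⟨u, hu⟩ := hPu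
  set H : PowerSeries R := PowerSeries.mk (fun n => h (n : ℤ)) with hH
  set F : PowerSeries R := (u⁻¹ : (PowerSeries R)ˣ) * H with hF
  have hPF : P * F = H := by
    rw [hF, ← hu, Units.mul_inv_cancel_left]
  refine ⟨fun z => if 0 ≤ z + m then coeff (z + m).toNat F else 0, fun z => ?_⟩
  by_cases hz : z < 0
  · rw [hneg z hz]
    apply Finset.sum_eq_zero
    intro τ hτ
    have h1 := hmin τ hτ
    show (if 0 ≤ z - τ + m then coeff (z - τ + m).toNat F else 0) = 0
    rw [if_neg (by omega)]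
  · have h1 : coeff z.toNat (P * F) = h z := by
      rw [hPF, hH, coeff_mk, Int.toNat_of_nonneg (by omega)]
    rw [← h1, hP, Finset.sum_mul, map_sum]
    apply Finset.sum_congr rfl
    intro τ hτ
    have h2 := hmin τ hτ
    rw [coeff_X_pow_mul']
    show (if 0 ≤ z - τ + m then coeff (z - τ + m).toNat F else 0) = _
    by_cases h3 : 0 ≤ z - τ + m
    · rw [if_pos h3, if_pos (by omega)]
      congr 1
      congr 1
      omega
    · rw [if_neg h3, if_neg (by omega)]

theorem conv_all {R : Type} [CommRing R] (T : Finset ℤ) (hT : T.Nonempty) (h : ℤ → R) :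
    ∃ f : ℤ → R, ∀ z, ∑ τ ∈ T, f (z - τ) = h z := by
  classical
  obtain ⟨f1, hf1⟩ := conv_pos T (T.min' hT) (T.min'_mem hT) (fun τ hτ => T.min'_le τ hτ)
    (fun z => if z < 0 then 0 else h z) (fun z hz => if_pos hz)
  have hT' : (T.image (fun τ => -τ)).Nonempty := hT.image _
  obtain ⟨f2, hf2⟩ := conv_pos (T.image (fun τ => -τ)) _ (Finset.min'_mem _ hT')
    (fun τ hτ => Finset.min'_le _ τ hτ)
    (fun z => if z ≤ 0 then 0 else h (-z)) (fun z hz => if_pos (le_of_lt hz))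
  refine ⟨fun z => f1 z + f2 (-z), fun z => ?_⟩
  rw [Finset.sum_add_distrib, hf1]
  have h2 : ∑ τ ∈ T, f2 (-(z - τ)) = if -z ≤ 0 then 0 else h (- -z) := by
    rw [← hf2 (-z), Finset.sum_image (fun a _ b _ hab => neg_injective hab)]
    apply Finset.sum_congr rfl
    intro τ _
    congr 1
    ring
  rw [h2]
  by_cases hz : z < 0
  · rw [if_pos hz, if_neg (by omega), neg_neg, zero_add]
  · rw [if_neg hz, if_pos (by omega), add_zero]

/-- partition of weights: every integer is covered `1` modulo `r` times -/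
theorem exists_weight (T : Finset ℤ) (hT : T.Nonempty) (r : ℕ) (hr : 2 ≤ r) :
    ∃ f : ℤ → ℕ, (∀ x, f x < r) ∧ ∀ z, (∑ τ ∈ T, f (z - τ)) % r = 1 := by
  have : NeZero r := ⟨by omega⟩
  obtain ⟨f, hf⟩ := conv_all (R := ZMod r) T hT (fun _ => 1)
  refine ⟨fun x => (f x).val, fun x => ZMod.val_lt _, fun z => ?_⟩
  have h1 : ((∑ τ ∈ T, (f (z - τ)).val : ℕ) : ZMod r) = ((1 : ℕ) : ZMod r) := by
    rw [Nat.cast_sum, Nat.cast_one, ← hf z]
    apply Finset.sum_congr rfl
    intro τ _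
    rw [ZMod.natCast_val, ZMod.cast_id', id]
  have h2 := (ZMod.natCast_eq_natCast_iff' _ _ _).1 h1
  rw [h2]
  exact Nat.mod_eq_of_lt (by omega)

end Pool.Agent.W361.Tile
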