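import Pool.Agent.W361.Tile.Step

/-!
Reducing the number of labels by one: the construction.
-/

set_option autoImplicit false

namespace Pool.Agent.W361.Tile

open Finset

/-- the constants of the construction (top colour `k`) -/
structure Dat (k r : ℕ) where
  (C0 : Finset ℕ) (C1 : Finset ℕ) (J0 : Finset ℕ) (J1 : Finset ℕ) (e : ℕ) (ls : ℕ)
  (g0 : Finset ℕ → ℕ → ℕ) (g1 : Finset ℕ → ℕ → ℕ) (gs : Finset ℕ → ℕ) (ks : Finset ℕ → ℕ)
  (ell : Finset ℕ → Finset ℕ → ℕ)
  (d0 : ∀ x, x ∈ C0 → x ∈ J0 → False)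
  (d1 : ∀ x, x ∈ C1 → x ∈ J1 → False)
  (j0 : ∀ w : Finset ℕ, w.card = r → w ⊆ range (k + 1) → k ∉ w → (∀ x ∈ w, x ∉ C0) → w = J0)
  (j1 : ∀ w : Finset ℕ, w.card = r → w ⊆ range (k + 1) → k ∉ w → (∀ x ∈ w, x ∉ C1) → w = J1)
  (kJ0 : k ∉ J0) (kJ1 : k ∉ J1)
  (heJ : ∀ x, x ∈ J0 → x ∈ C1 → x = e)
  (ls0 : ls ∉ C0) (ls1 : ls ∉ C1) (lsJ : ls ∈ J0) (lsk : ls < k)
  (J01 : J1 ≠ J0)
  (C0k : ∀ x ∈ C0, x < k) (C1k : ∀ x ∈ C1, x < k)
  (hg0 : ∀ B : Finset ℕ, B.card = r → B ⊆ range (k + 1) → k ∈ B →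
      (∀ x ∈ B, (x ∈ C0 ∨ x = k) → g0 B x < k ∧ g0 B x ∉ B ∧ g0 B x ∉ C0) ∧
      (∀ x ∈ B, ∀ y ∈ B, (x ∈ C0 ∨ x = k) → (y ∈ C0 ∨ y = k) → g0 B x = g0 B y → x = y))
  (hg1 : ∀ B : Finset ℕ, B.card = r → B ⊆ range (k + 1) → k ∈ B →
      (∀ x ∈ B, (x ∈ C1 ∨ x = k) → g1 B x < k ∧ g1 B x ∉ B ∧ g1 B x ∉ C1) ∧
      (∀ x ∈ B, ∀ y ∈ B, (x ∈ C1 ∨ x = k) → (y ∈ C1 ∨ y = k) → g1 B x = g1 B y → x = y))
  (hgs : ∀ B : Finset ℕ, B.card = r → B ⊆ range (k + 1) → k ∈ B →
      gs B < k ∧ gs B ∉ B ∧ gs B ≠ e ∧ (e ∈ B → gs B ≠ g1 B e))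
  (hks : ∀ B : Finset ℕ, B.card = r → B ⊆ range (k + 1) → k ∈ B →
      ks B < k ∧ ks B ∉ B ∧ ks B ≠ gs B)
  (hell : ∀ w1 w2 : Finset ℕ, w1.card = r → w1 ⊆ range (k + 1) → w2.card = r →
      w2 ⊆ range (k + 1) → k ∉ w1 → k ∉ w2 →
      ((∃ x ∈ w1, x ∈ (if w2 = J0 then C0 else C1)) →
        ell w1 w2 ∈ w1 ∧ ell w1 w2 ∈ (if w2 = J0 then C0 else C1)) ∧
      ((¬ ∃ x ∈ w1, x ∈ (if w2 = J0 then C0 else C1)) → w2 = J0 → ell w1 w2 = ls) ∧
      ((¬ ∃ x ∈ w1, x ∈ (if w2 = J0 then C0 else C1)) → w2 ≠ J0 →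
        ell w1 w2 ∈ w2 ∧ ell w1 w2 ∈ C0))

theorem exists_dat {k r : ℕ} (hr : 2 ≤ r) (hk : r + 1 ≤ k) : Nonempty (Dat k r) := by
  classical
  set C0 : Finset ℕ := range (k - r) with hC0
  set C1 : Finset ℕ := insert (k - 1) ((range (k - r)).erase 0) with hC1
  set J0 : Finset ℕ := range k \ C0 with hJ0
  set J1 : Finset ℕ := range k \ C1 with hJ1
  have C0s : C0 ⊆ range k := by
    intro x hx
    rw [hC0, mem_range] at hx
    rw [mem_range]
    omega
  have C1s : C1 ⊆ range k := by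
    intro x hx
    rw [hC1, mem_insert, mem_erase, mem_range] at hx
    rw [mem_range]
    omega
  have C0c : C0.card = k - r := by rw [hC0, card_range]
  have C1c : C1.card = k - r := by
    rw [hC1, card_insert_of_notMem, card_erase_of_mem, card_range]
    · omega
    · rw [mem_range]
      omega
    · rw [mem_erase, mem_range]
      omega
  have J0c : J0.card = r := by
    have := card_sdiff_add_card_eq_card C0s
    rw [C0c, card_range] at this
    rw [hJ0]
    omega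
  have J1c : J1.card = r := by
    have := card_sdiff_add_card_eq_card C1s
    rw [C1c, card_range] at this
    rw [hJ1]
    omega
  have mC0 : ∀ x, x ∈ C0 ↔ x < k - r := fun x => by rw [hC0, mem_range]
  have mC1 : ∀ x, x ∈ C1 ↔ (x = k - 1 ∨ (x ≠ 0 ∧ x < k - r)) := fun x => by
    rw [hC1, mem_insert, mem_erase, mem_range]
  have mJ0 : ∀ x, x ∈ J0 ↔ (x < k ∧ ¬ (x < k - r)) := fun x => by
    rw [hJ0, mem_sdiff, mC0, mem_range]
  have mJ1 : ∀ x, x ∈ J1 ↔ (x < k ∧ ¬ (x = k - 1 ∨ (x ≠ 0 ∧ x < k - r))) := fun x => by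
    rw [hJ1, mem_sdiff, mC1, mem_range]
  have jj : ∀ (C J : Finset ℕ), J = range k \ C → J.card = r → ∀ w : Finset ℕ, w.card = r →
      w ⊆ range (k + 1) → k ∉ w → (∀ x ∈ w, x ∉ C) → w = J := by
    intro C J hJ hJc w hw1 hw2 hw3 hw4
    refine eq_of_subset_of_card_le ?_ (by omega)
    intro x hx
    rw [hJ, mem_sdiff, mem_range]
    have h1 := mem_range.1 (hw2 hx)
    have h2 : x ≠ k := fun h => hw3 (h ▸ hx)
    exact ⟨by omega, hw4 x hx⟩
  obtain ⟨g0, hg0⟩ := exists_g hr hk C0 C0s C0c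
  obtain ⟨g1, hg1⟩ := exists_g hr hk C1 C1s C1c
  have hO : ∀ B : Finset ℕ, B.card = r → B ⊆ range (k + 1) → k ∈ B →
      2 ≤ (range k \ B).card ∧ (B.card = r) := by
    intro B h1 h2 h3
    refine ⟨?_, h1⟩
    have e0 : range k \ B = range k \ (B.erase k) := by
      ext x
      rw [mem_sdiff, mem_sdiff, mem_erase, mem_range]
      constructor
      · rintro ⟨a, b⟩
        exact ⟨a, fun h => b h.2⟩
      · rintro ⟨a, b⟩
        exact ⟨a, fun h => b ⟨by omega, h⟩⟩
    have e2 : B.erase k ⊆ range k := by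
      intro x h
      have h4 := mem_range.1 (h2 (mem_of_mem_erase h))
      have h5 := ne_of_mem_erase h
      rw [mem_range]
      omega
    have e3 := card_sdiff_add_card_eq_card e2
    rw [card_range, card_erase_of_mem h3] at e3
    rw [e0]
    omega
  have hgs : ∀ B : Finset ℕ, ∃ x, B.card = r → B ⊆ range (k + 1) → k ∈ B →
      x < k ∧ x ∉ B ∧ x ≠ k - 1 ∧ (k - 1 ∈ B → x ≠ g1 B (k - 1)) := by
    intro B
    by_cases hB : B.card = r ∧ B ⊆ range (k + 1) ∧ k ∈ B
    · obtain ⟨h1, h2, h3⟩ := hB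
      have h4 := (hO B h1 h2 h3).1
      by_cases he : k - 1 ∈ B
      · have h5 : 0 < ((range k \ B).erase (g1 B (k - 1))).card := by
          have := pred_card_le_card_erase (s := range k \ B) (a := g1 B (k - 1))
          omega
        obtain ⟨x, hx⟩ := card_pos.1 h5
        rw [mem_erase, mem_sdiff, mem_range] at hx
        exact ⟨x, fun _ _ _ => ⟨hx.2.1, hx.2.2, fun h => hx.2.2 (h ▸ he), fun _ => hx.1⟩⟩
      · have h5 : 0 < ((range k \ B).erase (k - 1)).card := by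
          have := pred_card_le_card_erase (s := range k \ B) (a := k - 1)
          omega
        obtain ⟨x, hx⟩ := card_pos.1 h5
        rw [mem_erase, mem_sdiff, mem_range] at hx
        exact ⟨x, fun _ _ _ => ⟨hx.2.1, hx.2.2, hx.1, fun h => absurd h he⟩⟩
    · exact ⟨0, fun h1 h2 h3 => absurd ⟨h1, h2, h3⟩ hB⟩
  choose gs hgs using hgs
  have hks : ∀ B : Finset ℕ, ∃ x, B.card = r → B ⊆ range (k + 1) → k ∈ B →
      x < k ∧ x ∉ B ∧ x ≠ gs B := by
    intro B
    by_cases hB : B.card = r ∧ B ⊆ range (k + 1) ∧ k ∈ B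
    · obtain ⟨h1, h2, h3⟩ := hB
      have h4 := (hO B h1 h2 h3).1
      have h5 : 0 < ((range k \ B).erase (gs B)).card := by
        have := pred_card_le_card_erase (s := range k \ B) (a := gs B)
        omega
      obtain ⟨x, hx⟩ := card_pos.1 h5
      rw [mem_erase, mem_sdiff, mem_range] at hx
      exact ⟨x, fun _ _ _ => ⟨hx.2.1, hx.2.2, hx.1⟩⟩
    · exact ⟨0, fun h1 h2 h3 => absurd ⟨h1, h2, h3⟩ hB⟩
  choose ks hks using hks
  have hell : ∀ w1 w2 : Finset ℕ, ∃ l, w1.card = r → w1 ⊆ range (k + 1) → w2.card = r →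
      w2 ⊆ range (k + 1) → k ∉ w1 → k ∉ w2 →
      ((∃ x ∈ w1, x ∈ (if w2 = J0 then C0 else C1)) →
        l ∈ w1 ∧ l ∈ (if w2 = J0 then C0 else C1)) ∧
      ((¬ ∃ x ∈ w1, x ∈ (if w2 = J0 then C0 else C1)) → w2 = J0 → l = k - 2) ∧
      ((¬ ∃ x ∈ w1, x ∈ (if w2 = J0 then C0 else C1)) → w2 ≠ J0 →
        l ∈ w2 ∧ l ∈ C0) := by
    intro w1 w2
    by_cases hx : ∃ x ∈ w1, x ∈ (if w2 = J0 then C0 else C1)
    · obtain ⟨x, hx1, hx2⟩ := hx
      exact ⟨x, fun _ _ _ _ _ _ => ⟨fun _ => ⟨hx1, hx2⟩, fun h => absurd ⟨x, hx1, hx2⟩ h,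
        fun h => absurd ⟨x, hx1, hx2⟩ h⟩⟩
    · by_cases hw : w2 = J0
      · exact ⟨k - 2, fun _ _ _ _ _ _ => ⟨fun h => absurd h hx, fun _ _ => rfl,
          fun _ h => absurd hw h⟩⟩
      · by_cases hy : ∃ y ∈ w2, y ∈ C0
        · obtain ⟨y, hy1, hy2⟩ := hy
          exact ⟨y, fun _ _ _ _ _ _ => ⟨fun h => absurd h hx, fun _ h => absurd h hw,
            fun _ _ => ⟨hy1, hy2⟩⟩⟩
        · refine ⟨0, fun _ _ h1 h2 _ h3 => ?_⟩
          exfalso
          apply hw
          refine jj C0 J0 hJ0 J0c w2 h1 h2 h3 (fun x hx1 hx2 => hy ⟨x, hx1, hx2⟩)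
  choose ell hell using hell
  refine ⟨{
    C0 := C0, C1 := C1, J0 := J0, J1 := J1, e := k - 1, ls := k - 2
    g0 := g0, g1 := g1, gs := gs, ks := ks, ell := ell
    d0 := ?_, d1 := ?_, j0 := jj C0 J0 hJ0 J0c, j1 := jj C1 J1 hJ1 J1c
    kJ0 := ?_, kJ1 := ?_, heJ := ?_, ls0 := ?_, ls1 := ?_, lsJ := ?_, lsk := ?_, J01 := ?_
    C0k := ?_, C1k := ?_, hg0 := hg0, hg1 := hg1, hgs := hgs, hks := hks, hell := hell }⟩
  · intro x h1 h2
    rw [mC0] at h1
    rw [mJ0] at h2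
    omega
  · intro x h1 h2
    rw [mC1] at h1
    rw [mJ1] at h2
    omega
  · rw [mJ0]
    omega
  · rw [mJ1]
    omega
  · intro x h1 h2
    rw [mJ0] at h1
    rw [mC1] at h2
    omega
  · rw [mC0]
    omega
  · rw [mC1]
    omega
  · rw [mJ0]
    omega
  · omega
  · intro h
    have h1 : k - 1 ∈ J0 := by
      rw [mJ0]
      omega
    rw [← h, mJ1] at h1
    omega
  · intro x hx
    exact mem_range.1 (C0s hx)
  · intro x hx
    exact mem_range.1 (C1s hx)

variable {k r : ℕ} (d : Dat k r)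

/-- colour `c` moved in direction 1 -/
def Dat.R1 (c : ℕ) (w : Fin 3 → Finset ℕ) : Prop :=
  c ∈ w 1 ∧ k ∉ w 2 ∧ c ∈ (if w 2 = d.J0 then d.C0 else d.C1)

/-- colour `c` moved in direction 2, column `J1` -/
def Dat.R2 (c : ℕ) (w : Fin 3 → Finset ℕ) : Prop :=
  w 1 = d.J1 ∧ c ∈ d.C0 ∧ c ∈ w 2

/-- colour `c` moved in direction 2, column `J0` -/
def Dat.R3 (c : ℕ) (w : Fin 3 → Finset ℕ) : Prop :=
  w 1 = d.J0 ∧ c = d.ls ∧ c ∈ w 2

theorem Dat.not12 {c c' : ℕ} {w : Fin 3 → Finset ℕ} (h1 : d.R1 c w) (h2 : d.R2 c' w) :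
    False := by
  obtain ⟨a1, a2, a3⟩ := h1
  obtain ⟨b1, b2, b3⟩ := h2
  rw [b1] at a1
  by_cases h : w 2 = d.J0
  · rw [h] at b3
    exact d.d0 _ b2 b3
  · rw [if_neg h] at a3
    exact d.d1 _ a3 a1

theorem Dat.one3 {c c' : ℕ} {w : Fin 3 → Finset ℕ} (h1 : d.R1 c w) (h2 : d.R3 c' w) :
    w 2 ≠ d.J0 ∧ c = d.e := by
  obtain ⟨a1, a2, a3⟩ := h1
  obtain ⟨b1, b2, b3⟩ := h2
  rw [b1] at a1
  by_cases h : w 2 = d.J0
  · rw [if_pos h] at a3
    exact absurd a1 (fun a => d.d0 _ a3 a)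
  · rw [if_neg h] at a3
    exact ⟨h, d.heJ _ a1 a3⟩

theorem Dat.not13 {c : ℕ} {w : Fin 3 → Finset ℕ} (h1 : d.R1 c w) (h2 : d.R3 c w) :
    False := by
  obtain ⟨a1, a2, a3⟩ := h1
  obtain ⟨b1, b2, b3⟩ := h2
  subst b2
  by_cases h : w 2 = d.J0
  · rw [if_pos h] at a3
    exact d.ls0 a3
  · rw [if_neg h] at a3
    exact d.ls1 a3

theorem Dat.not23 {c c' : ℕ} {w : Fin 3 → Finset ℕ} (h1 : d.R2 c w) (h2 : d.R3 c' w) :
    False := d.J01 (h1.1.symm.trans h2.1)

open Classical in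
/-- directions -/
noncomputable def Dat.dir (c : ℕ) (w : Fin 3 → Finset ℕ) : Fin 3 :=
  if c = k then (if k ∈ w 1 then 1 else if k ∈ w 2 then 2 else 0)
  else if d.R1 c w then 1 else if d.R2 c w ∨ d.R3 c w then 2 else 0

open Classical in
/-- labels -/
noncomputable def Dat.lab (c : ℕ) (w : Fin 3 → Finset ℕ) : ℕ :=
  if c = k then
    (if k ∈ w 1 then
      (if k ∈ w 2 then d.g0 (w 0) k else if w 2 = d.J0 then d.g0 (w 0) k else d.g1 (w 0) k)
    else if k ∈ w 2 then (if w 1 = d.J0 then d.ks (w 0) else d.g0 (w 0) k)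
    else d.ell (w 1) (w 2))
  else if k ∈ w 0 then
    (if d.R1 c w then (if w 2 = d.J0 then d.g0 (w 0) c else d.g1 (w 0) c)
    else if d.R2 c w then d.g0 (w 0) c
    else if d.R3 c w then d.gs (w 0)
    else c)
  else c

theorem Dat.mem_dir {w : Fin 3 → Finset ℕ} {c : ℕ} (hc : c ∈ w 0) : c ∈ w (d.dir c w) := by
  unfold Dat.dir
  by_cases hck : c = k
  · subst hck
    rw [if_pos rfl]
    split_ifs with h1 h2
    · exact h1
    · exact h2
    · exact hc
  · rw [if_neg hck]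
    split_ifs with h1 h2
    · exact h1.1
    · rcases h2 with h2 | h2
      · exact h2.2.2
      · exact h2.2.2
    · exact hc

theorem Dat.stable {w w' : Fin 3 → Finset ℕ} {c : ℕ} (hc' : c ∈ w' (d.dir c w))
    (hj : ∀ j, j ≠ d.dir c w → w' j = w j) : d.dir c w' = d.dir c w ∧ d.lab c w' = d.lab c w := by
  by_cases hck : c = k
  · subst hck
    by_cases h1 : c ∈ w 1
    · have hd : d.dir c w = 1 := by
        unfold Dat.dir
        rw [if_pos rfl, if_pos h1]
      rw [hd] at hc' hj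
      have e0 := hj 0 (by decide)
      have e2 := hj 2 (by decide)
      refine ⟨?_, ?_⟩
      · rw [hd]
        unfold Dat.dir
        rw [if_pos rfl, if_pos hc']
      · unfold Dat.lab
        rw [if_pos rfl, if_pos rfl, if_pos hc', if_pos h1, e0, e2]
    · by_cases h2 : c ∈ w 2
      · have hd : d.dir c w = 2 := by
          unfold Dat.dir
          rw [if_pos rfl, if_neg h1, if_pos h2]
        rw [hd] at hc' hj
        have e0 := hj 0 (by decide)
        have e1 := hj 1 (by decide)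
        have h1' : c ∉ w' 1 := by rw [e1]; exact h1
        refine ⟨?_, ?_⟩
        · rw [hd]
          unfold Dat.dir
          rw [if_pos rfl, if_neg h1', if_pos hc']
        · unfold Dat.lab
          rw [if_pos rfl, if_pos rfl, if_neg h1', if_neg h1, if_pos hc', if_pos h2, e0, e1]
      · have hd : d.dir c w = 0 := by
          unfold Dat.dir
          rw [if_pos rfl, if_neg h1, if_neg h2]
        rw [hd] at hc' hj
        have e1 := hj 1 (by decide)
        have e2 := hj 2 (by decide)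
        refine ⟨?_, ?_⟩
        · rw [hd]
          unfold Dat.dir
          rw [if_pos rfl, e1, e2, if_neg h1, if_neg h2]
        · unfold Dat.lab
          rw [if_pos rfl, if_pos rfl, e1, e2, if_neg h1, if_neg h1, if_neg h2, if_neg h2]
  · by_cases h1 : d.R1 c w
    · have hd : d.dir c w = 1 := by
        unfold Dat.dir
        rw [if_neg hck, if_pos h1]
      rw [hd] at hc' hj
      have e0 := hj 0 (by decide)
      have e2 := hj 2 (by decide)
      have h1' : d.R1 c w' := ⟨hc', by rw [e2]; exact h1.2.1, by rw [e2]; exact h1.2.2⟩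
      refine ⟨?_, ?_⟩
      · rw [hd]
        unfold Dat.dir
        rw [if_neg hck, if_pos h1']
      · unfold Dat.lab
        rw [if_neg hck, if_neg hck, if_pos h1, if_pos h1', e0, e2]
    · by_cases h2 : d.R2 c w ∨ d.R3 c w
      · have hd : d.dir c w = 2 := by
          unfold Dat.dir
          rw [if_neg hck, if_neg h1, if_pos h2]
        rw [hd] at hc' hj
        have e0 := hj 0 (by decide)
        have e1 := hj 1 (by decide)
        have h2' : d.R2 c w' ∨ d.R3 c w' := by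
          rcases h2 with h | h
          · left
            exact ⟨by rw [e1]; exact h.1, h.2.1, hc'⟩
          · right
            exact ⟨by rw [e1]; exact h.1, h.2.1, hc'⟩
        have h1' : ¬ d.R1 c w' := by
          intro h
          rcases h2' with h' | h'
          · exact d.not12 h h'
          · exact d.not13 h h'
        refine ⟨?_, ?_⟩
        · rw [hd]
          unfold Dat.dir
          rw [if_neg hck, if_neg h1', if_pos h2']
        · unfold Dat.lab
          rw [if_neg hck, if_neg hck, if_neg h1, if_neg h1', e0]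
          by_cases h3 : d.R2 c w
          · have h3' : d.R2 c w' := ⟨by rw [e1]; exact h3.1, h3.2.1, hc'⟩
            rw [if_pos h3, if_pos h3']
          · have h3' : ¬ d.R2 c w' := by
              intro h
              have h4 : d.R3 c w := by
                rcases h2 with h' | h'
                · exact absurd h' h3
                · exact h'
              exact d.J01 (h.1.symm.trans (e1.trans h4.1))
            have h4 : d.R3 c w := by
              rcases h2 with h' | h'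
              · exact absurd h' h3
              · exact h'
            have h4' : d.R3 c w' := by
              rcases h2' with h' | h'
              · exact absurd h' h3'
              · exact h'
            rw [if_neg h3, if_neg h3', if_pos h4, if_pos h4']
      · have hd : d.dir c w = 0 := by
          unfold Dat.dir
          rw [if_neg hck, if_neg h1, if_neg h2]
        rw [hd] at hc' hj
        have e1 := hj 1 (by decide)
        have e2 := hj 2 (by decide)
        have h1' : ¬ d.R1 c w' := by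
          unfold Dat.R1 at h1 ⊢
          rw [e1, e2]
          exact h1
        have h2' : ¬ d.R2 c w' := by
          unfold Dat.R2
          rw [e1, e2]
          exact fun h => h2 (Or.inl h)
        have h3' : ¬ d.R3 c w' := by
          unfold Dat.R3
          rw [e1, e2]
          exact fun h => h2 (Or.inr h)
        refine ⟨?_, ?_⟩
        · rw [hd]
          unfold Dat.dir
          rw [if_neg hck, if_neg h1', if_neg (fun h => h.elim h2' h3')]
        · unfold Dat.lab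
          rw [if_neg hck, if_neg hck, if_neg h1', if_neg h2', if_neg h3', if_neg h1,
            if_neg (fun h => h2 (Or.inl h)), if_neg (fun h => h2 (Or.inr h))]
          split_ifs <;> rfl

/-- the label of an ordinary colour -/
theorem Dat.lab_ord {w : Fin 3 → Finset ℕ} {c : ℕ}
    (hck : c ≠ k) (hk0 : k ∈ w 0) :
    (d.R1 c w ∧ w 2 = d.J0 ∧ c ∈ d.C0 ∧ d.lab c w = d.g0 (w 0) c) ∨
    (d.R1 c w ∧ w 2 ≠ d.J0 ∧ c ∈ d.C1 ∧ d.lab c w = d.g1 (w 0) c) ∨
    (d.R2 c w ∧ d.lab c w = d.g0 (w 0) c) ∨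
    (d.R3 c w ∧ d.lab c w = d.gs (w 0)) ∨
    (¬ d.R1 c w ∧ ¬ d.R2 c w ∧ ¬ d.R3 c w ∧ d.lab c w = c) := by
  unfold Dat.lab
  rw [if_neg hck, if_pos hk0]
  by_cases h1 : d.R1 c w
  · rw [if_pos h1]
    by_cases h2 : w 2 = d.J0
    · left
      have h3 := h1.2.2
      rw [if_pos h2] at h3
      exact ⟨h1, h2, h3, if_pos h2⟩
    · right; left
      have h3 := h1.2.2
      rw [if_neg h2] at h3
      exact ⟨h1, h2, h3, if_neg h2⟩
  · right; right
    rw [if_neg h1]
    by_cases h2 : d.R2 c w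
    · left
      exact ⟨h2, if_pos h2⟩
    · right
      rw [if_neg h2]
      by_cases h3 : d.R3 c w
      · left
        exact ⟨h3, if_pos h3⟩
      · right
        exact ⟨h1, h2, h3, if_neg h3⟩

/-- the label of an ordinary colour is either free or the colour itself -/
theorem Dat.lab_ord_lt {w : Fin 3 → Finset ℕ} (hw : Ok (k + 1) r w) {c : ℕ} (hc : c ∈ w 0)
    (hck : c ≠ k) : d.lab c w < k := by
  have hB := hw 0
  by_cases hk0 : k ∈ w 0
  · rcases d.lab_ord hck hk0 with ⟨_, _, h, h'⟩ | ⟨_, _, h, h'⟩ | ⟨h, h'⟩ | ⟨_, h'⟩ |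
      ⟨_, _, _, h'⟩
    · rw [h']
      exact ((d.hg0 _ hB.1 hB.2 hk0).1 c hc (Or.inl h)).1
    · rw [h']
      exact ((d.hg1 _ hB.1 hB.2 hk0).1 c hc (Or.inl h)).1
    · rw [h']
      exact ((d.hg0 _ hB.1 hB.2 hk0).1 c hc (Or.inl h.2.1)).1
    · rw [h']
      exact (d.hgs _ hB.1 hB.2 hk0).1
    · rw [h']
      have := mem_range.1 (hB.2 hc)
      omega
  · unfold Dat.lab
    rw [if_neg hck, if_neg hk0]
    have := mem_range.1 (hB.2 hc)
    omega

theorem Dat.lab_ord_inj {w : Fin 3 → Finset ℕ} (hw : Ok (k + 1) r w) {c c' : ℕ} (hc : c ∈ w 0)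
    (hc' : c' ∈ w 0) (hck : c ≠ k) (hck' : c' ≠ k) (heq : d.lab c w = d.lab c' w) : c = c' := by
  have hB := hw 0
  by_cases hk0 : k ∈ w 0
  · obtain ⟨g0a, g0b⟩ := d.hg0 _ hB.1 hB.2 hk0
    obtain ⟨g1a, g1b⟩ := d.hg1 _ hB.1 hB.2 hk0
    obtain ⟨s1, s2, s3, s4⟩ := d.hgs _ hB.1 hB.2 hk0
    rcases d.lab_ord hck hk0 with ⟨a1, a2, a3, a4⟩ | ⟨a1, a2, a3, a4⟩ | ⟨a1, a4⟩ |
      ⟨a1, a4⟩ | ⟨a1, a2, a3, a4⟩
    · rw [a4] at heq
      rcases d.lab_ord hck' hk0 with ⟨b1, b2, b3, b4⟩ | ⟨b1, b2, b3, b4⟩ | ⟨b1, b4⟩ |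
        ⟨b1, b4⟩ | ⟨b1, b2, b3, b4⟩
      · rw [b4] at heq
        exact g0b c hc c' hc' (Or.inl a3) (Or.inl b3) heq
      · exact absurd a2 b2
      · exact (d.not12 a1 b1).elim
      · exact absurd a2 (d.one3 a1 b1).1
      · rw [b4] at heq
        exact absurd (heq ▸ hc') (g0a c hc (Or.inl a3)).2.1
    · rw [a4] at heq
      rcases d.lab_ord hck' hk0 with ⟨b1, b2, b3, b4⟩ | ⟨b1, b2, b3, b4⟩ | ⟨b1, b4⟩ |
        ⟨b1, b4⟩ | ⟨b1, b2, b3, b4⟩
      · exact absurd b2 a2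
      · rw [b4] at heq
        exact g1b c hc c' hc' (Or.inl a3) (Or.inl b3) heq
      · exact (d.not12 a1 b1).elim
      · rw [b4] at heq
        have h := (d.one3 a1 b1).2
        subst h
        exact absurd heq.symm (s4 hc)
      · rw [b4] at heq
        exact absurd (heq ▸ hc') (g1a c hc (Or.inl a3)).2.1
    · rw [a4] at heq
      rcases d.lab_ord hck' hk0 with ⟨b1, b2, b3, b4⟩ | ⟨b1, b2, b3, b4⟩ | ⟨b1, b4⟩ |
        ⟨b1, b4⟩ | ⟨b1, b2, b3, b4⟩
      · exact (d.not12 b1 a1).elim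
      · exact (d.not12 b1 a1).elim
      · rw [b4] at heq
        exact g0b c hc c' hc' (Or.inl a1.2.1) (Or.inl b1.2.1) heq
      · exact (d.not23 a1 b1).elim
      · rw [b4] at heq
        exact absurd (heq ▸ hc') (g0a c hc (Or.inl a1.2.1)).2.1
    · rw [a4] at heq
      rcases d.lab_ord hck' hk0 with ⟨b1, b2, b3, b4⟩ | ⟨b1, b2, b3, b4⟩ | ⟨b1, b4⟩ |
        ⟨b1, b4⟩ | ⟨b1, b2, b3, b4⟩
      · exact absurd b2 (d.one3 b1 a1).1
      · rw [b4] at heq
        have h := (d.one3 b1 a1).2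
        subst h
        exact absurd heq (s4 hc')
      · exact (d.not23 b1 a1).elim
      · exact a1.2.1.trans b1.2.1.symm
      · rw [b4] at heq
        exact absurd (heq ▸ hc') s2
    · rw [a4] at heq
      rcases d.lab_ord hck' hk0 with ⟨b1, b2, b3, b4⟩ | ⟨b1, b2, b3, b4⟩ | ⟨b1, b4⟩ |
        ⟨b1, b4⟩ | ⟨b1, b2, b3, b4⟩
      · rw [b4] at heq
        exact absurd (heq ▸ hc) (g0a c' hc' (Or.inl b3)).2.1
      · rw [b4] at heq
        exact absurd (heq ▸ hc) (g1a c' hc' (Or.inl b3)).2.1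
      · rw [b4] at heq
        exact absurd (heq ▸ hc) (g0a c' hc' (Or.inl b1.2.1)).2.1
      · rw [b4] at heq
        exact absurd (heq ▸ hc) s2
      · rw [b4] at heq
        exact heq
  · unfold Dat.lab at heq
    rw [if_neg hck, if_neg hk0, if_neg hck', if_neg hk0] at heq
    exact heq

/-- the label of the top colour is new -/
theorem Dat.lab_top {w : Fin 3 → Finset ℕ} (hw : Ok (k + 1) r w) (hk0 : k ∈ w 0) :
    d.lab k w < k ∧ ∀ c ∈ w 0, c ≠ k → d.lab k w ≠ d.lab c w := by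
  have hB := hw 0
  obtain ⟨g0a, g0b⟩ := d.hg0 _ hB.1 hB.2 hk0
  obtain ⟨g1a, g1b⟩ := d.hg1 _ hB.1 hB.2 hk0
  obtain ⟨s1, s2, s3, s4⟩ := d.hgs _ hB.1 hB.2 hk0
  obtain ⟨t1, t2, t3⟩ := d.hks _ hB.1 hB.2 hk0
  by_cases h1 : k ∈ w 1
  · have n0 : w 1 ≠ d.J0 := fun h => d.kJ0 (h ▸ h1)
    have n1 : w 1 ≠ d.J1 := fun h => d.kJ1 (h ▸ h1)
    by_cases h2 : k ∈ w 2
    · have hl : d.lab k w = d.g0 (w 0) k := by
        unfold Dat.lab
        rw [if_pos rfl, if_pos h1, if_pos h2]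
      rw [hl]
      refine ⟨(g0a k hk0 (Or.inr rfl)).1, fun c hc hck heq => ?_⟩
      rcases d.lab_ord hck hk0 with ⟨a1, a2, a3, a4⟩ | ⟨a1, a2, a3, a4⟩ | ⟨a1, a4⟩ |
        ⟨a1, a4⟩ | ⟨a1, a2, a3, a4⟩
      · exact a1.2.1 h2
      · exact a1.2.1 h2
      · exact n1 a1.1
      · exact n0 a1.1
      · rw [a4] at heq
        exact absurd (heq ▸ hc) (g0a k hk0 (Or.inr rfl)).2.1
    · by_cases h3 : w 2 = d.J0
      · have hl : d.lab k w = d.g0 (w 0) k := by
          unfold Dat.lab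
          rw [if_pos rfl, if_pos h1, if_neg h2, if_pos h3]
        rw [hl]
        refine ⟨(g0a k hk0 (Or.inr rfl)).1, fun c hc hck heq => ?_⟩
        rcases d.lab_ord hck hk0 with ⟨a1, a2, a3, a4⟩ | ⟨a1, a2, a3, a4⟩ | ⟨a1, a4⟩ |
          ⟨a1, a4⟩ | ⟨a1, a2, a3, a4⟩
        · rw [a4] at heq
          exact hck (g0b k hk0 c hc (Or.inr rfl) (Or.inl a3) heq).symm
        · exact a2 h3
        · exact n1 a1.1
        · exact n0 a1.1
        · rw [a4] at heq
          exact absurd (heq ▸ hc) (g0a k hk0 (Or.inr rfl)).2.1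
      · have hl : d.lab k w = d.g1 (w 0) k := by
          unfold Dat.lab
          rw [if_pos rfl, if_pos h1, if_neg h2, if_neg h3]
        rw [hl]
        refine ⟨(g1a k hk0 (Or.inr rfl)).1, fun c hc hck heq => ?_⟩
        rcases d.lab_ord hck hk0 with ⟨a1, a2, a3, a4⟩ | ⟨a1, a2, a3, a4⟩ | ⟨a1, a4⟩ |
          ⟨a1, a4⟩ | ⟨a1, a2, a3, a4⟩
        · exact h3 a2
        · rw [a4] at heq
          exact hck (g1b k hk0 c hc (Or.inr rfl) (Or.inl a3) heq).symm
        · exact n1 a1.1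
        · exact n0 a1.1
        · rw [a4] at heq
          exact absurd (heq ▸ hc) (g1a k hk0 (Or.inr rfl)).2.1
  · by_cases h2 : k ∈ w 2
    · by_cases h3 : w 1 = d.J0
      · have hl : d.lab k w = d.ks (w 0) := by
          unfold Dat.lab
          rw [if_pos rfl, if_neg h1, if_pos h2, if_pos h3]
        rw [hl]
        refine ⟨t1, fun c hc hck heq => ?_⟩
        rcases d.lab_ord hck hk0 with ⟨a1, a2, a3, a4⟩ | ⟨a1, a2, a3, a4⟩ | ⟨a1, a4⟩ |
          ⟨a1, a4⟩ | ⟨a1, a2, a3, a4⟩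
        · exact a1.2.1 h2
        · exact a1.2.1 h2
        · exact d.J01 (a1.1.symm.trans h3)
        · rw [a4] at heq
          exact t3 heq
        · rw [a4] at heq
          exact absurd (heq ▸ hc) t2
      · have hl : d.lab k w = d.g0 (w 0) k := by
          unfold Dat.lab
          rw [if_pos rfl, if_neg h1, if_pos h2, if_neg h3]
        rw [hl]
        refine ⟨(g0a k hk0 (Or.inr rfl)).1, fun c hc hck heq => ?_⟩
        rcases d.lab_ord hck hk0 with ⟨a1, a2, a3, a4⟩ | ⟨a1, a2, a3, a4⟩ | ⟨a1, a4⟩ |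
          ⟨a1, a4⟩ | ⟨a1, a2, a3, a4⟩
        · exact a1.2.1 h2
        · exact a1.2.1 h2
        · rw [a4] at heq
          exact hck (g0b k hk0 c hc (Or.inr rfl) (Or.inl a1.2.1) heq).symm
        · exact h3 a1.1
        · rw [a4] at heq
          exact absurd (heq ▸ hc) (g0a k hk0 (Or.inr rfl)).2.1
    · have hl : d.lab k w = d.ell (w 1) (w 2) := by
        unfold Dat.lab
        rw [if_pos rfl, if_neg h1, if_neg h2]
      rw [hl]
      have hll := d.hell (w 1) (w 2) (hw 1).1 (hw 1).2 (hw 2).1 (hw 2).2 h1 h2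
      generalize d.ell (w 1) (w 2) = E at hll ⊢
      obtain ⟨l1, l2, l3⟩ := hll
      by_cases hx : ∃ x ∈ w 1, x ∈ (if w 2 = d.J0 then d.C0 else d.C1)
      · obtain ⟨m1, m2⟩ := l1 hx
        by_cases h3 : w 2 = d.J0
        · rw [if_pos h3] at m2
          refine ⟨d.C0k _ m2, fun c hc hck heq => ?_⟩
          rcases d.lab_ord hck hk0 with ⟨a1, a2, a3, a4⟩ | ⟨a1, a2, a3, a4⟩ | ⟨a1, a4⟩ |
            ⟨a1, a4⟩ | ⟨a1, a2, a3, a4⟩
          · rw [a4] at heq
            exact absurd (heq ▸ m2) (g0a c hc (Or.inl a3)).2.2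
          · exact a2 h3
          · have := a1.2.2
            rw [h3] at this
            exact d.d0 _ a1.2.1 this
          · rw [a1.1] at m1
            exact d.d0 _ m2 m1
          · rw [a4] at heq
            apply a1
            refine ⟨heq ▸ m1, h2, ?_⟩
            rw [if_pos h3]
            exact heq ▸ m2
        · rw [if_neg h3] at m2
          refine ⟨d.C1k _ m2, fun c hc hck heq => ?_⟩
          rcases d.lab_ord hck hk0 with ⟨a1, a2, a3, a4⟩ | ⟨a1, a2, a3, a4⟩ | ⟨a1, a4⟩ |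
            ⟨a1, a4⟩ | ⟨a1, a2, a3, a4⟩
          · exact h3 a2
          · rw [a4] at heq
            exact absurd (heq ▸ m2) (g1a c hc (Or.inl a3)).2.2
          · rw [a1.1] at m1
            exact d.d1 _ m2 m1
          · rw [a1.1] at m1
            have := d.heJ _ m1 m2
            rw [a4, this] at heq
            exact s3 heq.symm
          · rw [a4] at heq
            apply a1
            refine ⟨heq ▸ m1, h2, ?_⟩
            rw [if_neg h3]
            exact heq ▸ m2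
      · by_cases h3 : w 2 = d.J0
        · have m := l2 hx h3
          rw [m]
          have hw1 : w 1 = d.J0 := by
            apply d.j0 _ (hw 1).1 (hw 1).2 h1
            intro x hx1 hx2
            exact hx ⟨x, hx1, by rw [if_pos h3]; exact hx2⟩
          refine ⟨d.lsk, fun c hc hck heq => ?_⟩
          rcases d.lab_ord hck hk0 with ⟨a1, a2, a3, a4⟩ | ⟨a1, a2, a3, a4⟩ | ⟨a1, a4⟩ |
            ⟨a1, a4⟩ | ⟨a1, a2, a3, a4⟩
          · exact hx ⟨c, a1.1, a1.2.2⟩
          · exact a2 h3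
          · exact d.J01 (a1.1.symm.trans hw1)
          · rw [a4] at heq
            rw [← heq, ← a1.2.1] at s2
            exact s2 hc
          · rw [a4] at heq
            apply a3
            refine ⟨hw1, heq.symm, ?_⟩
            rw [h3, ← heq]
            exact d.lsJ
        · obtain ⟨m1, m2⟩ := l3 hx h3
          have hw1 : w 1 = d.J1 := by
            apply d.j1 _ (hw 1).1 (hw 1).2 h1
            intro x hx1 hx2
            exact hx ⟨x, hx1, by rw [if_neg h3]; exact hx2⟩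
          refine ⟨d.C0k _ m2, fun c hc hck heq => ?_⟩
          rcases d.lab_ord hck hk0 with ⟨a1, a2, a3, a4⟩ | ⟨a1, a2, a3, a4⟩ | ⟨a1, a4⟩ |
            ⟨a1, a4⟩ | ⟨a1, a2, a3, a4⟩
          · exact h3 a2
          · exact hx ⟨c, a1.1, a1.2.2⟩
          · rw [a4] at heq
            exact absurd (heq ▸ m2) (g0a c hc (Or.inl a1.2.1)).2.2
          · exact d.J01 (hw1.symm.trans a1.1)
          · rw [a4] at heq
            apply a2
            exact ⟨hw1, heq ▸ m2, heq ▸ m1⟩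

theorem lab_step {X : Type} {𝒯 : Set (Set X)} {k r : ℕ} (hr : 2 ≤ r) (hk : r + 1 ≤ k)
    (h : Lab 𝒯 (k + 1) r) : Lab (line (Fin 3) 𝒯) k r := by
  obtain ⟨d⟩ := exists_dat hr hk
  refine lab_strand h d.dir d.lab ?_ ?_ ?_ ?_
  · intro w _ c hc
    exact d.mem_dir hc
  · intro w w' _ _ c _ hc' hj
    exact d.stable hc' hj
  · intro w hw c hc c' hc' heq
    by_cases h1 : c = k
    · by_cases h2 : c' = k
      · rw [h1, h2]
      · subst h1
        exact absurd heq ((d.lab_top hw hc).2 c' hc' h2)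
    · by_cases h2 : c' = k
      · subst h2
        exact absurd heq.symm ((d.lab_top hw hc').2 c hc h1)
      · exact d.lab_ord_inj hw hc hc' h1 h2 heq
  · intro w hw c hc
    by_cases h1 : c = k
    · subst h1
      exact (d.lab_top hw hc).1
    · exact d.lab_ord_lt hw hc h1

end Pool.Agent.W361.Tile
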