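import Pool.Agent.W361.Tile.Good
import Pool.Agent.W361.Tile.Step2
import Pool.Agent.W361.Tile.Int

/-!
Every finite set of integers with `r` elements tiles a power of the integers whose dimension
depends only on `r`.
-/

set_option autoImplicit false

namespace Pool.Agent.W361.Tile

open Finset

theorem lab_mono {X : Type} {𝒯 : Set (Set X)} {K K' r : ℕ} (hK : K ≤ K') (h : Lab 𝒯 K r) :
    Lab 𝒯 K' r := by
  obtain ⟨L, hL, hT⟩ := h
  refine ⟨L, fun x => ⟨(hL x).1, fun c hc => ?_⟩, hT⟩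
  have := mem_range.1 ((hL x).2 hc)
  exact mem_range.2 (by omega)

theorem lab_iter {r : ℕ} (hr : 2 ≤ r) : ∀ m : ℕ, ∃ (ι : Type) (_ : Fintype ι),
    ∀ (X : Type) (𝒯 : Set (Set X)), Lab 𝒯 (r + 1 + m) r → Lab (line ι 𝒯) (r + 1) r := by
  intro m
  induction m with
  | zero =>
    refine ⟨Unit, inferInstance, ?_⟩
    rintro X 𝒯 ⟨L, hL, hT⟩
    refine ⟨fun y => L (y ()), fun y => hL (y ()), fun c => ?_⟩
    refine tl_assign (fun _ => ()) (fun _ => {x | c ∈ L x}) ?_ ?_ ?_
    · intro y hy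
      exact hy
    · intro _ _
      exact hT c
    · intro y hy z hz _
      exact ⟨hz, rfl, rfl⟩
  | succ m ih =>
    obtain ⟨ι, hι, hi⟩ := ih
    refine ⟨ι × Fin 3, inferInstance, ?_⟩
    intro X 𝒯 h
    have h1 : Lab (line (Fin 3) 𝒯) (r + 1 + m) r := lab_step hr (by omega) h
    obtain ⟨L, hL, hT⟩ := hi _ _ h1
    refine ⟨fun u => L (fun k i => u (k, i)), fun u => hL _, fun c => ?_⟩
    exact tl_curry (hT c)

/-- the missing label is a morphism onto `Fin (r+1)` with complements of points as tiles -/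
theorem exists_miss {Y : Type} {𝒰 : Set (Set Y)} {r : ℕ} (h : Lab 𝒰 (r + 1) r) :
    ∃ p : Y → Fin (r + 1), ∀ s ∈ co r, Tl 𝒰 (p ⁻¹' s) := by
  classical
  obtain ⟨L, hL, hT⟩ := h
  have h1 : ∀ y, ∃ c : Fin (r + 1), range (r + 1) \ L y = {(c : ℕ)} := by
    intro y
    have h2 := card_sdiff_add_card_eq_card (hL y).2
    rw [(hL y).1, card_range] at h2
    have h3 : (range (r + 1) \ L y).card = 1 := by omega
    obtain ⟨c, hc⟩ := card_eq_one.1 h3
    have h4 : c ∈ range (r + 1) \ L y := by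
      rw [hc]
      exact mem_singleton_self c
    exact ⟨⟨c, mem_range.1 (mem_sdiff.1 h4).1⟩, hc⟩
  choose p hp using h1
  refine ⟨p, ?_⟩
  rintro s ⟨c, rfl⟩
  refine (congrArg (Tl 𝒰) ?_).mp (hT c)
  ext y
  have h5 : (c : ℕ) ∈ range (r + 1) \ L y ↔ (c : ℕ) = (p y : ℕ) := by
    rw [hp y, mem_singleton]
  rw [mem_sdiff, mem_range] at h5
  constructor
  · intro h6 h7
    exact (h5.2 (congrArg Fin.val h7.symm)).2 h6
  · intro h6
    by_contra h7
    exact h6 (Fin.ext (h5.1 ⟨c.2, h7⟩).symm)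

theorem tile_big (r : ℕ) (hr : 2 ≤ r) :
    ∃ n : ℕ, ∀ T : Finset ℤ, T.card = r → Tl (line (Fin n) (shifts T)) Set.univ := by
  classical
  obtain ⟨ι, hι, hiter⟩ := lab_iter hr (r * r)
  obtain ⟨κ, hκ, g, hg, hG⟩ := good_all hr (Fin (r + 1 + r * r) × Fin r)
  refine ⟨Fintype.card (Option (κ × ι)), fun T hT => ?_⟩
  have hTne : T.Nonempty := card_pos.1 (by omega)
  obtain ⟨χ, hχ1, hχ2⟩ := exists_colour T
  have hχK : ∀ x, χ x < r + 1 + r * r := by
    intro x
    have := hχ1 x
    rw [hT] at this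
    omega
  obtain ⟨f, hf1, hf2⟩ := exists_weight T hTne r hr
  have hlab : Lab (shifts T) (r + 1 + r * r) r := by
    have := lab_int T χ _ hχK hχ2
    rwa [hT] at this
  obtain ⟨p, hp⟩ := exists_miss (hiter _ _ hlab)
  set P : (κ × ι → ℤ) → κ → Fin (r + 1) := fun v k => p (fun i => v (k, i)) with hP
  have hpull : ∀ A : Set (κ → Fin (r + 1)), Tl (line κ (co r)) A →
      Tl (line (κ × ι) (shifts T)) {v | P v ∈ A} := by
    intro A hA
    exact tl_curry (tl_prod p hp hA)
  -- the sets with all multiplicities one modulo r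
  set G : Fin (r + 1 + r * r) × Fin r → Set ℤ :=
    fun b => {z | ∃ x, (χ x = b.1 ∧ (b.2 : ℕ) < f x) ∧ z - x ∈ T} with hGdef
  have hGT : ∀ b, Tl (shifts T) (G b) := by
    intro b
    refine tl_shifts T (fun x => χ x = b.1 ∧ (b.2 : ℕ) < f x) ?_
    intro x x' z h1 h2 h3 h4
    by_contra hne
    exact hχ2 x x' (z - x') (z - x) h4 h3 (fun h => hne (by omega)) (by omega)
      (h1.1.trans h2.1.symm)
  have hQ : ∀ z : ℤ, ∃ Q : Finset (Fin (r + 1 + r * r) × Fin r),
      (∀ b, b ∈ Q ↔ z ∈ G b) ∧ Q.card % r = 1 := by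
    intro z
    refine ⟨T.biUnion (fun τ => (univ.filter (fun j : Fin r => (j : ℕ) < f (z - τ))).map
      ⟨fun j => ((⟨χ (z - τ), hχK _⟩ : Fin (r + 1 + r * r)), j), fun a b h => by
        simpa using h⟩), ?_, ?_⟩
    · rintro ⟨c, j⟩
      rw [mem_biUnion]
      constructor
      · rintro ⟨τ, hτ, h⟩
        rw [mem_map] at h
        obtain ⟨j', hj', h'⟩ := h
        have h1 : (⟨χ (z - τ), hχK _⟩ : Fin (r + 1 + r * r)) = c := congrArg Prod.fst h'
        have h2 : j' = j := congrArg Prod.snd h'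
        subst h2
        refine ⟨z - τ, ⟨?_, ?_⟩, ?_⟩
        · rw [← h1]
        · exact (mem_filter.1 hj').2
        · rw [sub_sub_cancel]
          exact hτ
      · rintro ⟨x, ⟨h1, h2⟩, h3⟩
        refine ⟨z - x, h3, ?_⟩
        rw [mem_map]
        refine ⟨j, ?_, ?_⟩
        · rw [mem_filter, sub_sub_cancel]
          exact ⟨mem_univ _, h2⟩
        · refine Prod.ext (Fin.ext ?_) rfl
          show χ (z - (z - x)) = (c : ℕ)
          rw [sub_sub_cancel]
          exact h1
    · rw [card_biUnion]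
      · refine Eq.trans ?_ (hf2 z)
        congr 1
        apply Finset.sum_congr rfl
        intro τ _
        rw [card_map]
        have h1 := hf1 (z - τ)
        rw [Fin.card_filter_val_lt]
        omega
      · intro τ hτ τ' hτ' hne
        show Disjoint _ _
        rw [disjoint_left]
        rintro ⟨c, j⟩ h1 h2
        rw [mem_map] at h1 h2
        obtain ⟨j1, _, e1⟩ := h1
        obtain ⟨j2, _, e2⟩ := h2
        have e3 : (⟨χ (z - τ), hχK _⟩ : Fin (r + 1 + r * r)) = c := congrArg Prod.fst e1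
        have e4 : (⟨χ (z - τ'), hχK _⟩ : Fin (r + 1 + r * r)) = c := congrArg Prod.fst e2
        have e5 : χ (z - τ) = χ (z - τ') := congrArg Fin.val (e3.trans e4.symm)
        exact hχ2 (z - τ) (z - τ') τ' τ hτ' hτ (Ne.symm hne) (by omega) e5
  have hmain : Tl (line (Option (κ × ι)) (shifts T)) Set.univ := by
    refine tl_option (fun v => {z | ∃ b, P v = g b ∧ z ∈ G b}) ?_ ?_ ?_
    · intro v
      by_cases h : ∃ b, P v = g b
      · obtain ⟨b, hb⟩ := h
        refine (congrArg (Tl (shifts T)) ?_).mp (hGT b)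
        ext z
        constructor
        · intro hz
          exact ⟨b, hb, hz⟩
        · rintro ⟨b', hb', hz⟩
          rw [hg (hb.symm.trans hb')]
          exact hz
      · refine (congrArg (Tl (shifts T)) ?_).mp (tl_empty _)
        ext z
        constructor
        · intro hz
          exact absurd hz (by simp)
        · rintro ⟨b', hb', _⟩
          exact absurd ⟨b', hb'⟩ h
    · intro _ _ _
      trivial
    · intro z
      obtain ⟨Q, hQ1, hQ2⟩ := hQ z
      refine (congrArg (Tl (line (κ × ι) (shifts T))) ?_).mp (hpull _ (hG Q hQ2))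
      ext v
      constructor
      · intro h
        refine ⟨?_, trivial⟩
        rintro ⟨b, hb, hz⟩
        exact h b ((hQ1 b).2 hz) hb
      · rintro ⟨h, _⟩ b hb heq
        exact h ⟨b, heq, (hQ1 b).1 hb⟩
  have := tl_reindex (κ' := Fin (Fintype.card (Option (κ × ι))))
    (Fintype.equivFin (Option (κ × ι))) (Equiv.injective _) hmain
  refine (congrArg (Tl (line (Fin (Fintype.card (Option (κ × ι)))) (shifts T))) ?_).mp this
  ext v
  constructor
  · intro _
    trivial
  · intro _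
    trivial

theorem tile_all (r : ℕ) : ∃ n : ℕ, ∀ T : Finset ℤ, T.Nonempty → T.card = r →
    Tl (line (Fin n) (shifts T)) Set.univ := by
  by_cases hr : 2 ≤ r
  · obtain ⟨n, hn⟩ := tile_big r hr
    exact ⟨n, fun T _ hT => hn T hT⟩
  · refine ⟨1, fun T hTn hT => ?_⟩
    have h1 : T.card = 1 := by
      have := card_pos.2 hTn
      omega
    obtain ⟨a, ha⟩ := card_eq_one.1 h1
    have h2 := tl_shifts T (fun _ => True) (by
      intro x x' z _ _ h3 h4
      rw [ha, mem_singleton] at h3 h4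
      omega)
    have h3 : {z : ℤ | ∃ x, True ∧ z - x ∈ T} = Set.univ := by
      ext z
      constructor
      · intro _
        trivial
      · intro _
        refine ⟨z - a, trivial, ?_⟩
        rw [sub_sub_cancel, ha]
        exact mem_singleton_self a
    rw [h3] at h2
    refine tl_assign (fun _ => 0) (fun _ => Set.univ) ?_ ?_ ?_
    · intro _ _
      trivial
    · intro _ _
      exact h2
    · intro _ _ _ _ _
      exact ⟨trivial, rfl, rfl⟩

theorem tile_final (t : ℕ) : ∃ d : ℕ, ∀ T : Finset ℤ, T.Nonempty → T.card ≤ t →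
    Tl (line (Fin d) (shifts T)) Set.univ := by
  choose n hn using tile_all
  refine ⟨∑ i ∈ range (t + 1), n i, fun T hT hc => ?_⟩
  have hle : n T.card ≤ ∑ i ∈ range (t + 1), n i :=
    single_le_sum (f := n) (fun _ _ => Nat.zero_le _) (mem_range.2 (by omega))
  have := tl_reindex (Fin.castLE hle) (Fin.castLE_injective hle) (hn T.card T hT rfl)
  refine (congrArg (Tl (line (Fin (∑ i ∈ range (t + 1), n i)) (shifts T))) ?_).mp this
  ext v
  constructor
  · intro _
    trivial
  · intro _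
    trivial

theorem frozen_form (t : ℕ) : ∃ d : ℕ, ∀ T : Finset ℤ, T.Nonempty → T.card ≤ t →
      ∃ C : Set (Set (Fin d → ℤ)),
        (∀ S ∈ C, ∃ v : Fin d → ℤ, ∃ i : Fin d, ∃ s : ℤ, (s = 1 ∨ s = -1) ∧
          S = (fun a : ℤ => v + (s * a) • Pi.single i (1 : ℤ)) '' (T : Set ℤ)) ∧
        ∀ x : Fin d → ℤ, ∃! S : Set (Fin d → ℤ), S ∈ C ∧ x ∈ S := by
  obtain ⟨d, hd⟩ := tile_final t
  refine ⟨d, fun T hT hc => ?_⟩
  obtain ⟨S, hS⟩ := hd T hT hc
  refine ⟨Set.range S, ?_, ?_⟩
  · rintro _ ⟨x, rfl⟩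
    obtain ⟨y, i, s, ⟨a, rfl⟩, hs⟩ := (hS x trivial).2.1
    refine ⟨Function.update y i a, i, 1, Or.inl rfl, ?_⟩
    rw [hs]
    ext z
    constructor
    · rintro ⟨h1, h2⟩
      refine ⟨z i - a, h1, ?_⟩
      funext j
      by_cases hj : j = i
      · subst hj
        simp
      · simp [hj, h2 j hj]
    · rintro ⟨b, hb, rfl⟩
      refine ⟨?_, fun j hj => ?_⟩
      · simpa using hb
      · simp [hj]
  · intro x
    refine ⟨S x, ⟨⟨x, rfl⟩, (hS x trivial).1⟩, ?_⟩
    rintro _ ⟨⟨y, rfl⟩, hy⟩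
    exact ((hS y trivial).2.2.2 x hy).symm

end Pool.Agent.W361.Tile
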