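import Mathlib

/-!
Tilings as local choices of tiles: general lemmas.
-/

set_option autoImplicit false

namespace Pool.Agent.W361.Tile

/-- `A` is a disjoint union of members of `𝒯` (local form). -/
def Tl {X : Type} (𝒯 : Set (Set X)) (A : Set X) : Prop :=
  ∃ S : X → Set X, ∀ x ∈ A, x ∈ S x ∧ S x ∈ 𝒯 ∧ S x ⊆ A ∧ ∀ y ∈ S x, S y = S x

theorem tl_empty {X : Type} (𝒯 : Set (Set X)) : Tl 𝒯 ∅ :=
  ⟨fun _ => ∅, fun x hx => absurd hx (by simp)⟩

theorem tl_tile {X : Type} {𝒯 : Set (Set X)} {s : Set X} (hs : s ∈ 𝒯) : Tl 𝒯 s :=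
  ⟨fun _ => s, fun _ hx => ⟨hx, hs, subset_rfl, fun _ _ => rfl⟩⟩

theorem tl_fib {X J : Type} {𝒯 : Set (Set X)} {A : Set X} (j : X → J)
    (h : ∀ v, Tl 𝒯 (A ∩ j ⁻¹' {v})) : Tl 𝒯 A := by
  choose S hS using h
  refine ⟨fun x => S (j x) x, fun x hx => ?_⟩
  obtain ⟨h1, h2, h3, h4⟩ := hS (j x) x ⟨hx, rfl⟩
  refine ⟨h1, h2, fun y hy => (h3 hy).1, fun y hy => ?_⟩
  have hj : j y = j x := (h3 hy).2
  simp only [hj]
  exact h4 y hy

theorem tl_pull {X Y : Type} {𝒯 : Set (Set X)} {𝒰 : Set (Set Y)} (φ : Y → X) (B : Set Y)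
    (hφ : ∀ s ∈ 𝒯, Tl 𝒰 (φ ⁻¹' s ∩ B)) {A : Set X} (hA : Tl 𝒯 A) :
    Tl 𝒰 (φ ⁻¹' A ∩ B) := by
  obtain ⟨S, hS⟩ := hA
  refine tl_fib (fun y => S (φ y)) (fun v => ?_)
  by_cases hv : ∃ x ∈ A, S x = v
  · obtain ⟨x, hx, rfl⟩ := hv
    have h : (φ ⁻¹' A ∩ B) ∩ (fun y => S (φ y)) ⁻¹' {S x} = φ ⁻¹' (S x) ∩ B := by
      ext y
      constructor
      · rintro ⟨⟨h1, h2⟩, h3⟩
        have h3' : S (φ y) = S x := h3
        refine ⟨?_, h2⟩
        have h4 := (hS (φ y) h1).1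
        rw [h3'] at h4
        exact h4
      · rintro ⟨h1, h2⟩
        exact ⟨⟨(hS x hx).2.2.1 h1, h2⟩, (hS x hx).2.2.2 _ h1⟩
    rw [h]
    exact hφ _ (hS x hx).2.1
  · have h : (φ ⁻¹' A ∩ B) ∩ (fun y => S (φ y)) ⁻¹' {v} = ∅ := by
      ext y
      simp only [Set.mem_inter_iff, Set.mem_preimage, Set.mem_singleton_iff,
        Set.mem_empty_iff_false, iff_false, not_and]
      intro h1 h2
      exact hv ⟨φ y, h1.1, h2⟩
    rw [h]
    exact tl_empty _

/-- The tiles of a product: one coordinate runs through a tile, the others are fixed. -/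
def line {X : Type} (κ : Type) (𝒯 : Set (Set X)) : Set (Set (κ → X)) :=
  {S | ∃ (y : κ → X) (i : κ) (s : Set X), s ∈ 𝒯 ∧ S = {z | z i ∈ s ∧ ∀ j, j ≠ i → z j = y j}}

theorem tl_assign {X κ : Type} {𝒯 : Set (Set X)} {A : Set (κ → X)}
    (dir : (κ → X) → κ) (D : (κ → X) → Set X)
    (h1 : ∀ y ∈ A, y (dir y) ∈ D y)
    (h2 : ∀ y ∈ A, Tl 𝒯 (D y))
    (h3 : ∀ y ∈ A, ∀ z : κ → X, z (dir y) ∈ D y → (∀ j, j ≠ dir y → z j = y j) →
      z ∈ A ∧ dir z = dir y ∧ D z = D y) :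
    Tl (line κ 𝒯) A := by
  classical
  have hF : ∀ E : Set X, ∃ S : X → Set X, Tl 𝒯 E →
      ∀ x ∈ E, x ∈ S x ∧ S x ∈ 𝒯 ∧ S x ⊆ E ∧ ∀ y ∈ S x, S y = S x := by
    intro E
    by_cases h : Tl 𝒯 E
    · obtain ⟨S, hS⟩ := h
      exact ⟨S, fun _ => hS⟩
    · exact ⟨fun _ => ∅, fun h' => absurd h' h⟩
  choose F hF using hF
  refine ⟨fun y => {z | z (dir y) ∈ F (D y) (y (dir y)) ∧ ∀ j, j ≠ dir y → z j = y j},
    fun y hy => ?_⟩
  obtain ⟨g1, g2, g3, g4⟩ := hF (D y) (h2 y hy) _ (h1 y hy)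
  refine ⟨⟨g1, fun _ _ => rfl⟩, ⟨y, dir y, _, g2, rfl⟩, ?_, ?_⟩
  · rintro z ⟨hz1, hz2⟩
    exact (h3 y hy z (g3 hz1) hz2).1
  · rintro z ⟨hz1, hz2⟩
    obtain ⟨_, k2, k3⟩ := h3 y hy z (g3 hz1) hz2
    ext u
    have e1 : (u (dir z) ∈ F (D z) (z (dir z)) ∧ ∀ j, j ≠ dir z → u j = z j) ↔
        (u (dir y) ∈ F (D y) (y (dir y)) ∧ ∀ j, j ≠ dir y → u j = y j) := by
      rw [k2, k3, g4 _ hz1]
      constructor
      · rintro ⟨a, b⟩
        exact ⟨a, fun j hj => (b j hj).trans (hz2 j hj)⟩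
      · rintro ⟨a, b⟩
        exact ⟨a, fun j hj => (b j hj).trans (hz2 j hj).symm⟩
    exact e1

/-- reindexing along an injection -/
theorem tl_reindex {X κ κ' : Type} {𝒯 : Set (Set X)} (e : κ → κ') (he : Function.Injective e)
    {A : Set (κ → X)} (hA : Tl (line κ 𝒯) A) :
    Tl (line κ' 𝒯) {u | (fun k => u (e k)) ∈ A} := by
  have := tl_pull (𝒰 := line κ' 𝒯) (fun (u : κ' → X) (k : κ) => u (e k)) Set.univ ?_ hA
  · rw [Set.inter_univ] at this
    exact this
  · rintro s ⟨y, i, s0, hs0, rfl⟩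
    refine tl_assign (fun _ => e i) (fun _ => s0) ?_ ?_ ?_
    · rintro u ⟨hu, -⟩
      exact hu.1
    · intro _ _
      exact tl_tile hs0
    · rintro u ⟨⟨hu1, hu2⟩, -⟩ z hz1 hz2
      refine ⟨⟨⟨hz1, fun j hj => ?_⟩, trivial⟩, rfl, rfl⟩
      exact (hz2 (e j) (fun h => hj (he h))).trans (hu2 j hj)

/-- product of morphisms -/
theorem tl_prod {X Y κ : Type} {𝒯 : Set (Set X)} {𝒰 : Set (Set Y)} (φ : Y → X)
    (hφ : ∀ s ∈ 𝒯, Tl 𝒰 (φ ⁻¹' s)) {A : Set (κ → X)} (hA : Tl (line κ 𝒯) A) :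
    Tl (line κ 𝒰) {u | (fun k => φ (u k)) ∈ A} := by
  have := tl_pull (𝒰 := line κ 𝒰) (fun (u : κ → Y) (k : κ) => φ (u k)) Set.univ ?_ hA
  · rw [Set.inter_univ] at this
    exact this
  · rintro s ⟨y, i, s0, hs0, rfl⟩
    refine tl_assign (fun _ => i) (fun _ => φ ⁻¹' s0) ?_ ?_ ?_
    · rintro u ⟨hu, -⟩
      exact hu.1
    · intro _ _
      exact hφ _ hs0
    · rintro u ⟨⟨hu1, hu2⟩, -⟩ z hz1 hz2
      refine ⟨⟨⟨hz1, fun j hj => ?_⟩, trivial⟩, rfl, rfl⟩
      show φ (z j) = y j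
      rw [hz2 j hj]
      exact hu2 j hj

/-- currying -/
theorem tl_curry {X κ ι : Type} {𝒯 : Set (Set X)}
    {A : Set (κ → ι → X)} (hA : Tl (line κ (line ι 𝒯)) A) :
    Tl (line (κ × ι) 𝒯) {u | (fun k i => u (k, i)) ∈ A} := by
  have := tl_pull (𝒰 := line (κ × ι) 𝒯) (fun (u : κ × ι → X) (k : κ) (i : ι) => u (k, i))
    Set.univ ?_ hA
  · rw [Set.inter_univ] at this
    exact this
  · rintro s ⟨y, k, s0, ⟨v, i, s1, hs1, rfl⟩, rfl⟩
    refine tl_assign (fun _ => (k, i)) (fun _ => s1) ?_ ?_ ?_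
    · rintro u ⟨hu, -⟩
      exact hu.1.1
    · intro _ _
      exact tl_tile hs1
    · rintro u ⟨⟨⟨hu1, hu2⟩, hu3⟩, -⟩ z hz1 hz2
      refine ⟨⟨⟨⟨hz1, fun j hj => ?_⟩, fun j hj => ?_⟩, trivial⟩, rfl, rfl⟩
      · have h := hu2 j hj
        have h' := hz2 (k, j) (fun h => hj (by simpa using h))
        exact h'.trans h
      · have h := hu3 j hj
        funext t
        have h' := hz2 (j, t) (fun h => hj (congrArg Prod.fst h))
        exact h'.trans (congrFun h t)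

/-- prepend a coordinate -/
def cons {X κ : Type} (z : X) (y : κ → X) : Option κ → X := fun o => o.elim z y

@[simp] theorem cons_none {X κ : Type} (z : X) (y : κ → X) : cons z y none = z := rfl
@[simp] theorem cons_some {X κ : Type} (z : X) (y : κ → X) (k : κ) : cons z y (some k) = y k := rfl

theorem cons_eta {X κ : Type} (u : Option κ → X) : cons (u none) (fun k => u (some k)) = u := by
  funext o
  cases o <;> rfl

theorem tl_option {X κ : Type} {𝒯 : Set (Set X)} {A : Set (Option κ → X)} (D : (κ → X) → Set X)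
    (hD : ∀ y, Tl 𝒯 (D y))
    (hsub : ∀ (z : X) (y : κ → X), z ∈ D y → cons z y ∈ A)
    (hs : ∀ z, Tl (line κ 𝒯) {y | z ∉ D y ∧ cons z y ∈ A}) :
    Tl (line (Option κ) 𝒯) A := by
  classical
  refine tl_fib (fun u => if u none ∈ D (fun k => u (some k)) then none else some (u none))
    (fun v => ?_)
  cases v with
  | none =>
    refine tl_assign (fun _ => none) (fun u => D (fun k => u (some k))) ?_ ?_ ?_
    · rintro u ⟨_, hu⟩
      by_contra hc
      have hu' : (if u none ∈ D (fun k => u (some k)) then none else some (u none)) = none := hu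
      rw [if_neg hc] at hu'
      exact absurd hu' (by simp)
    · intro _ _
      exact hD _
    · rintro u ⟨hu1, hu2⟩ z hz1 hz2
      have hz : (fun k => z (some k)) = (fun k => u (some k)) := by
        funext k
        exact hz2 (some k) (by simp)
      have hzD : z none ∈ D (fun k => z (some k)) := by
        rw [hz]
        exact hz1
      refine ⟨⟨?_, ?_⟩, rfl, ?_⟩
      · have := hsub _ _ hzD
        rwa [cons_eta] at this
      · show (if z none ∈ D (fun k => z (some k)) then none else some (z none)) = none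
        rw [if_pos hzD]
      · show D (fun k => z (some k)) = D (fun k => u (some k))
        rw [hz]
  | some v =>
    have h := tl_pull (𝒰 := line (Option κ) 𝒯) (fun (u : Option κ → X) (k : κ) => u (some k))
      {u | u none = v} ?_ (hs v)
    · refine (congrArg (Tl (line (Option κ) 𝒯)) ?_).mp h
      ext u
      constructor
      · rintro ⟨⟨hu1, hu2⟩, hu3⟩
        have hu3' : u none = v := hu3
        have hu2' : cons v (fun k => u (some k)) ∈ A := hu2
        have hu1' : v ∉ D (fun k => u (some k)) := hu1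
        rw [← hu3', cons_eta] at hu2'
        refine ⟨hu2', ?_⟩
        show (if u none ∈ D (fun k => u (some k)) then none else some (u none)) = some v
        rw [if_neg (by rw [hu3']; exact hu1'), hu3']
      · rintro ⟨hu1, hu2⟩
        have hu2' : (if u none ∈ D (fun k => u (some k)) then none else some (u none)) = some v :=
          hu2
        by_cases hc : u none ∈ D (fun k => u (some k))
        · rw [if_pos hc] at hu2'
          exact absurd hu2' (by simp)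
        · rw [if_neg hc] at hu2'
          have hv : u none = v := by simpa using hu2'
          refine ⟨⟨by rw [← hv]; exact hc, ?_⟩, hv⟩
          show cons v (fun k => u (some k)) ∈ A
          rw [← hv, cons_eta]
          exact hu1
    · rintro s ⟨y, i, s0, hs0, rfl⟩
      refine tl_assign (fun _ => some i) (fun _ => s0) ?_ ?_ ?_
      · rintro u ⟨hu, -⟩
        exact hu.1
      · intro _ _
        exact tl_tile hs0
      · rintro u ⟨⟨hu1, hu2⟩, hu3⟩ z hz1 hz2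
        refine ⟨⟨⟨hz1, fun j hj => ?_⟩, ?_⟩, rfl, rfl⟩
        · exact (hz2 (some j) (fun h => hj (by simpa using h))).trans (hu2 j hj)
        · exact (hz2 none (by simp)).trans hu3

end Pool.Agent.W361.Tile
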