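import Pool.Agent.W361.Tile.Basic

/-!
Good sets of points in powers of `Fin (r+1)`: every subset of size one modulo `r` has a
complement which is a disjoint union of axis lines minus a point.
-/

set_option autoImplicit false

namespace Pool.Agent.W361.Tile

open Finset

/-- complements of points -/
def co (r : ℕ) : Set (Set (Fin (r + 1))) := {S | ∃ c, S = {x | x ≠ c}}

/-- existence of a good family indexed by `α` -/
def Good (r : ℕ) (α : Type) : Prop :=
  ∃ (κ : Type) (_ : Fintype κ) (g : α → κ → Fin (r + 1)), Function.Injective g ∧
    ∀ Q : Finset α, Q.card % r = 1 → Tl (line κ (co r)) {y | ∀ a ∈ Q, y ≠ g a}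

theorem column {r : ℕ} {α κ : Type} [Fintype α]
    (g : α → κ → Fin (r + 1)) (hg : Function.Injective g)
    (hG : ∀ Q : Finset α, Q.card % r = 1 → Tl (line κ (co r)) {y | ∀ a ∈ Q, y ≠ g a})
    (W : α → Fin (r + 1) → Prop) (H : Finset α) (m : α → Fin (r + 1))
    (hW : ∀ a ∈ H, ∀ b, b ≠ m a → ¬ W a b)
    (Qb : Fin (r + 1) → Finset α)
    (hQb : ∀ b a, a ∈ Qb b ↔ (W a b ∨ (a ∈ H ∧ b ≠ m a)))
    (hc : ∀ b, (Qb b).card % r = 1) :
    Tl (line (Option κ) (co r)) {u | ∀ a b, W a b → u ≠ cons b (g a)} := by
  refine tl_option (fun y => {x | ∃ a ∈ H, y = g a ∧ x ≠ m a}) ?_ ?_ ?_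
  · intro y
    by_cases h : ∃ a ∈ H, y = g a
    · obtain ⟨a, ha, rfl⟩ := h
      have : {x | ∃ a' ∈ H, g a = g a' ∧ x ≠ m a'} = {x | x ≠ m a} := by
        ext x
        constructor
        · rintro ⟨a', _, h1, h2⟩
          rw [hg h1]
          exact h2
        · intro h
          exact ⟨a, ha, rfl, h⟩
      rw [this]
      exact tl_tile ⟨m a, rfl⟩
    · have : {x | ∃ a' ∈ H, y = g a' ∧ x ≠ m a'} = ∅ := by
        ext x
        constructor
        · rintro ⟨a', h1, h2, _⟩
          exact absurd ⟨a', h1, h2⟩ h
        · intro h
          exact absurd h (by simp)
      rw [this]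
      exact tl_empty _
  · rintro z y ⟨a, ha, rfl, hz⟩ a' b hWab heq
    have h1 : z = b := congrFun heq none
    have h2 : g a = g a' := by
      funext k
      exact congrFun heq (some k)
    have h3 := hg h2
    subst h3 h1
    exact hW a ha z hz hWab
  · intro z
    have : {y | z ∉ {x | ∃ a ∈ H, y = g a ∧ x ≠ m a} ∧
        cons z y ∈ {u | ∀ a b, W a b → u ≠ cons b (g a)}} = {y | ∀ a ∈ Qb z, y ≠ g a} := by
      ext y
      constructor
      · rintro ⟨h1, h2⟩ a ha rfl
        rcases (hQb z a).1 ha with h | ⟨h, h'⟩
        · exact h2 a z h rfl
        · exact h1 ⟨a, h, rfl, h'⟩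
      · intro h
        refine ⟨?_, ?_⟩
        · rintro ⟨a, ha, hy, hz⟩
          exact h a ((hQb z a).2 (Or.inr ⟨ha, hz⟩)) hy
        · intro a b hab heq
          have h1 : z = b := congrFun heq none
          have h2 : y = g a := by
            funext k
            exact congrFun heq (some k)
          subst h1
          exact h a ((hQb z a).2 (Or.inl hab)) h2
    rw [this]
    exact hG _ (hc z)

theorem good_of_embedding {r : ℕ} {α β : Type} (h : Good r α) (e : β ↪ α) : Good r β := by
  obtain ⟨κ, hκ, g, hg, hG⟩ := h
  refine ⟨κ, hκ, fun b => g (e b), fun a b h => e.injective (hg h), fun Q hQ => ?_⟩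
  have := hG (Q.map e) (by rw [card_map]; exact hQ)
  refine (congrArg (Tl (line κ (co r))) ?_).mp this
  ext y
  constructor
  · intro h a ha
    exact h _ (mem_map_of_mem e ha)
  · intro h a ha
    obtain ⟨b, hb, rfl⟩ := mem_map.1 ha
    exact h b hb

theorem good_unit {r : ℕ} : Good r Unit := by
  refine ⟨Unit, inferInstance, fun _ _ => 0, fun _ _ _ => rfl, fun Q hQ => ?_⟩
  have hQ1 : () ∈ Q := by
    by_contra h
    have : Q = ∅ := by
      ext ⟨⟩
      simp [h]
    rw [this] at hQ
    simp at hQ
  refine tl_tile ⟨fun _ => 0, (), {x | x ≠ 0}, ⟨0, rfl⟩, ?_⟩
  ext y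
  constructor
  · intro h
    refine ⟨fun h0 => h () hQ1 ?_, fun j hj => absurd rfl hj⟩
    funext k
    exact h0
  · rintro ⟨h, _⟩ a _ heq
    exact h (congrFun heq ())

/-- the new family -/
theorem good_step_aux {r : ℕ} {α κ : Type} [Fintype α] [DecidableEq α]
    (g : α → κ → Fin (r + 1)) (hg : Function.Injective g)
    (hG : ∀ Q : Finset α, Q.card % r = 1 → Tl (line κ (co r)) {y | ∀ a ∈ Q, y ≠ g a})
    [Fintype κ] (a0 : α) (c : α → Fin (r + 1)) (cs : Fin (r + 1)) (hcs : cs ≠ c a0)
    (hmain : ∀ Q' : Finset α, a0 ∉ Q' → (Q'.card + 2) % r = 1 →
      ∃ (H : Finset α) (m : α → Fin (r + 1)) (Qb : Fin (r + 1) → Finset α),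
        (∀ a ∈ H, ∀ b, b ≠ m a →
          ¬ (((a ∈ Q' ∨ a = a0) ∧ b = c a) ∨ (a = a0 ∧ b = cs))) ∧
        (∀ b a, a ∈ Qb b ↔
          ((((a ∈ Q' ∨ a = a0) ∧ b = c a) ∨ (a = a0 ∧ b = cs)) ∨ (a ∈ H ∧ b ≠ m a))) ∧
        (∀ b, (Qb b).card % r = 1)) :
    Good r (Option α) := by
  refine ⟨Option κ, inferInstance,
    fun o => o.elim (cons cs (g a0)) (fun a => cons (c a) (g a)), ?_, fun Q hQ => ?_⟩
  · intro o o' h
    cases o with
    | none =>
      cases o' with
      | none => rfl
      | some a =>
        exfalso
        have h1 : cs = c a := congrFun h none
        have h2 : g a0 = g a := by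
          funext k
          exact congrFun h (some k)
        rw [← hg h2] at h1
        exact hcs h1
    | some a =>
      cases o' with
      | none =>
        exfalso
        have h1 : c a = cs := congrFun h none
        have h2 : g a = g a0 := by
          funext k
          exact congrFun h (some k)
        rw [hg h2] at h1
        exact hcs h1.symm
      | some a' =>
        have h2 : g a = g a' := by
          funext k
          exact congrFun h (some k)
        rw [hg h2]
  · have hset : {y | ∀ o ∈ Q, y ≠ (fun o : Option α =>
        o.elim (cons cs (g a0)) (fun a => cons (c a) (g a))) o} =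
        {u | ∀ a b, ((some a ∈ Q ∧ b = c a) ∨ (none ∈ Q ∧ a = a0 ∧ b = cs)) →
          u ≠ cons b (g a)} := by
      ext u
      constructor
      · rintro h a b (⟨h1, rfl⟩ | ⟨h1, rfl, rfl⟩)
        · exact h _ h1
        · exact h _ h1
      · intro h o ho
        cases o with
        | none => exact h a0 cs (Or.inr ⟨ho, rfl, rfl⟩)
        | some a => exact h a (c a) (Or.inl ⟨ho, rfl⟩)
    rw [hset]
    by_cases hboth : some a0 ∈ Q ∧ none ∈ Q
    · -- both points over a0
      obtain ⟨hb1, hb2⟩ := hboth
      obtain ⟨Q', hQ'⟩ : ∃ Q' : Finset α, ∀ a, a ∈ Q' ↔ (a ≠ a0 ∧ some a ∈ Q) :=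
        ⟨univ.filter (fun a => a ≠ a0 ∧ some a ∈ Q), by simp⟩
      have hcard : Q.card = Q'.card + 2 := by
        have h1 : Q = insert none (insert (some a0) (Q'.map Function.Embedding.some)) := by
          ext o
          cases o with
          | none => simp [hb2]
          | some a =>
            simp only [mem_insert, mem_map, Function.Embedding.some_apply, Option.some.injEq,
              exists_eq_right, hQ']
            constructor
            · intro h
              by_cases ha : a = a0
              · right; left; exact ha
              · right; right; exact ⟨ha, h⟩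
            · rintro (h | h | h)
              · exact absurd h (by simp)
              · rw [h]; exact hb1
              · exact h.2
        rw [h1, card_insert_of_notMem, card_insert_of_notMem, card_map]
        · simp [hQ']
        · simp
      obtain ⟨H, m, Qb, k1, k2, k3⟩ := hmain Q' (by simp [hQ']) (by rw [← hcard]; exact hQ)
      have hiff : ∀ a b, ((some a ∈ Q ∧ b = c a) ∨ (none ∈ Q ∧ a = a0 ∧ b = cs)) ↔
          (((a ∈ Q' ∨ a = a0) ∧ b = c a) ∨ (a = a0 ∧ b = cs)) := by
        intro a b
        have : some a ∈ Q ↔ (a ∈ Q' ∨ a = a0) := by
          rw [hQ']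
          constructor
          · intro h
            by_cases ha : a = a0
            · right; exact ha
            · left; exact ⟨ha, h⟩
          · rintro (h | h)
            · exact h.2
            · rw [h]; exact hb1
        rw [this]
        simp [hb2]
      refine column g hg hG _ H m ?_ Qb ?_ k3
      · intro a ha b hb hw
        exact k1 a ha b hb ((hiff a b).1 hw)
      · intro b a
        rw [k2, hiff]
    · -- distinct projections
      set H : Finset α := Q.image (fun o => o.getD a0) with hH
      have hHmem : ∀ a, a ∈ H ↔ (some a ∈ Q ∨ (none ∈ Q ∧ a = a0)) := by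
        intro a
        rw [hH, mem_image]
        constructor
        · rintro ⟨o, ho, rfl⟩
          cases o with
          | none => right; exact ⟨ho, rfl⟩
          | some a => left; exact ho
        · rintro (h | ⟨h, rfl⟩)
          · exact ⟨some a, h, rfl⟩
          · exact ⟨none, h, rfl⟩
      have hHcard : H.card = Q.card := by
        rw [hH]
        apply card_image_of_injOn
        intro o ho o' ho' heq
        cases o with
        | none =>
          cases o' with
          | none => rfl
          | some a =>
            exfalso
            have : a0 = a := heq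
            rw [← this] at ho'
            exact hboth ⟨ho', ho⟩
        | some a =>
          cases o' with
          | none =>
            exfalso
            have : a = a0 := heq
            rw [this] at ho
            exact hboth ⟨ho, ho'⟩
          | some a' =>
            have : a = a' := heq
            rw [this]
      refine column g hg hG _ H (fun a => if some a ∈ Q then c a else cs) ?_ (fun _ => H) ?_ ?_
      · rintro a ha b hb (⟨h1, h2⟩ | ⟨h1, h2, h3⟩)
        · rw [if_pos h1] at hb
          exact hb h2
        · by_cases h4 : some a ∈ Q
          · rw [h2] at h4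
            exact hboth ⟨h4, h1⟩
          · rw [if_neg h4] at hb
            exact hb h3
      · intro b a
        constructor
        · intro ha
          by_cases hb : b = (if some a ∈ Q then c a else cs)
          · left
            by_cases h4 : some a ∈ Q
            · rw [if_pos h4] at hb
              left; exact ⟨h4, hb⟩
            · rw [if_neg h4] at hb
              right
              rcases (hHmem a).1 ha with h | h
              · exact absurd h h4
              · exact ⟨h.1, h.2, hb⟩
          · right; exact ⟨ha, hb⟩
        · rintro ((⟨h1, h2⟩ | ⟨h1, h2, h3⟩) | ⟨h1, h2⟩)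
          · exact (hHmem a).2 (Or.inl h1)
          · exact (hHmem a).2 (Or.inr ⟨h1, h2⟩)
          · exact h1
      · intro b
        show H.card % r = 1
        rw [hHcard]
        exact hQ

theorem good_step {r : ℕ} (hr : 2 ≤ r) {α : Type} [Fintype α] [Nonempty α]
    (h : Good r α) : Good r (Option α) := by
  classical
  obtain ⟨κ, hκ, g, hg, hG⟩ := h
  obtain ⟨a0⟩ := ‹Nonempty α›
  have : NeZero (r + 1) := ⟨by omega⟩
  have h1r : 1 % r = 1 := Nat.mod_eq_of_lt (by omega)
  by_cases hM : Fintype.card α % r = 0
  · -- many slices
    have hMr : r ≤ Fintype.card α := by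
      have hpos : 0 < Fintype.card α := Fintype.card_pos_iff.2 ⟨a0⟩
      exact Nat.le_of_dvd hpos (Nat.dvd_of_mod_eq_zero hM)
    set cs : Fin (r + 1) := 0 with hcs
    obtain ⟨c, hcne, hcsurj⟩ : ∃ c : α → Fin (r + 1), (∀ a, c a ≠ cs) ∧
        ∀ b, b ≠ cs → ∃ a, c a = b := by
      have hcard : Fintype.card {b : Fin (r + 1) // b ≠ cs} ≤ Fintype.card α := by
        rw [Fintype.card_subtype_compl, Fintype.card_subtype_eq, Fintype.card_fin]
        omega
      obtain ⟨e⟩ := Function.Embedding.nonempty_of_card_le hcard
      have : Nonempty {b : Fin (r + 1) // b ≠ cs} :=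
        ⟨⟨Fin.last r, by
          rw [hcs]
          intro h
          have := congrArg Fin.val h
          simp at this
          omega⟩⟩
      refine ⟨fun a => (Function.invFun e a).1, fun a => (Function.invFun e a).2, fun b hb => ?_⟩
      refine ⟨e ⟨b, hb⟩, ?_⟩
      exact congrArg Subtype.val (Function.leftInverse_invFun e.injective ⟨b, hb⟩)
    choose! e he using hcsurj
    refine good_step_aux g hg hG a0 c cs (Ne.symm (hcne a0)) (fun Q' ha0 hQ' => ?_)
    set S : Finset α := (univ.erase a0) \ Q' with hS
    have hSsub : Q' ⊆ univ.erase a0 := fun a ha => by
      rw [mem_erase]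
      exact ⟨fun h => ha0 (h ▸ ha), mem_univ _⟩
    have hScard : S.card + Q'.card + 1 = Fintype.card α := by
      have h1 : S.card + Q'.card = (univ.erase a0).card := card_sdiff_add_card_eq_card hSsub
      rw [card_erase_of_mem (mem_univ _), card_univ] at h1
      have hpos : 0 < Fintype.card α := Fintype.card_pos_iff.2 ⟨a0⟩
      omega
    by_cases hS0 : S = ∅
    · -- everything is removed
      set E : Finset (Fin (r + 1)) := (univ.erase (c a0)).erase cs with hE
      have hEcard : E.card = r - 1 := by
        rw [hE, card_erase_of_mem, card_erase_of_mem (mem_univ _), card_univ, Fintype.card_fin]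
        · omega
        · rw [mem_erase]
          exact ⟨Ne.symm (hcne a0), mem_univ _⟩
      have hEmem : ∀ b, b ∈ E ↔ (b ≠ cs ∧ b ≠ c a0) := by
        intro b
        rw [hE, mem_erase, mem_erase]
        simp
      set H : Finset α := Q' \ E.image e with hH
      have hall : ∀ a, a ≠ a0 → a ∈ Q' := by
        intro a ha
        by_contra h
        have : a ∈ S := by
          rw [hS, mem_sdiff, mem_erase]
          exact ⟨⟨ha, mem_univ _⟩, h⟩
        rw [hS0] at this
        exact absurd this (by simp)
      have heE : ∀ b ∈ E, e b ≠ a0 := by
        intro b hb h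
        have h1 := he b ((hEmem b).1 hb).1
        rw [h] at h1
        exact ((hEmem b).1 hb).2 h1.symm
      have himcard : (E.image e).card = r - 1 := by
        rw [card_image_of_injOn, hEcard]
        intro b hb b' hb' h
        have h1 := he b ((hEmem b).1 hb).1
        have h2 := he b' ((hEmem b').1 hb').1
        rw [← h1, ← h2, h]
      have himsub : E.image e ⊆ Q' := by
        intro a ha
        obtain ⟨b, hb, rfl⟩ := mem_image.1 ha
        exact hall _ (heE b hb)
      have hHcard : H.card + (r - 1) = Q'.card := by
        rw [← himcard]
        exact card_sdiff_add_card_eq_card himsub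
      have hHmod : (H.card + 1) % r = 1 := by
        have h1 : S.card = 0 := by rw [hS0]; rfl
        have h2 : H.card + r = Fintype.card α := by omega
        have h3 : H.card % r = 0 := by
          have : (H.card + r) % r = 0 := by rw [h2]; exact hM
          rwa [Nat.add_mod_right] at this
        rw [Nat.add_mod, h3, h1r, Nat.zero_add]
        exact h1r
      refine ⟨H, c, fun b => if b = cs ∨ b = c a0 then insert a0 H else insert (e b) H, ?_, ?_, ?_⟩
      · rintro a ha b hb (⟨h1, h2⟩ | ⟨h1, h2⟩)
        · exact hb h2
        · rw [hH, mem_sdiff] at ha
          exact ha0 (h1 ▸ ha.1)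
      · intro b a
        by_cases hb : b = cs ∨ b = c a0
        · show a ∈ (if b = cs ∨ b = c a0 then insert a0 H else insert (e b) H) ↔ _
          rw [if_pos hb, mem_insert]
          constructor
          · rintro (rfl | h)
            · left
              rcases hb with hb | hb
              · right; exact ⟨rfl, hb⟩
              · left; exact ⟨Or.inr rfl, hb⟩
            · by_cases hbc : b = c a
              · left; left
                rw [hH, mem_sdiff] at h
                exact ⟨Or.inl h.1, hbc⟩
              · right; exact ⟨h, hbc⟩
          · rintro ((⟨h1, h2⟩ | ⟨h1, h2⟩) | ⟨h1, h2⟩)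
            · rcases h1 with h1 | h1
              · right
                rw [hH, mem_sdiff]
                refine ⟨h1, fun h3 => ?_⟩
                obtain ⟨b', hb', rfl⟩ := mem_image.1 h3
                have h4 := he b' ((hEmem b').1 hb').1
                rw [h4] at h2
                subst h2
                rcases hb with hb | hb
                · exact ((hEmem b).1 hb').1 hb
                · exact ((hEmem b).1 hb').2 hb
              · left; exact h1
            · left; exact h1
            · right; exact h1
        · show a ∈ (if b = cs ∨ b = c a0 then insert a0 H else insert (e b) H) ↔ _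
          rw [if_neg hb, mem_insert]
          have hb1 : b ≠ cs := fun h => hb (Or.inl h)
          have hb2 : b ≠ c a0 := fun h => hb (Or.inr h)
          have hbE : b ∈ E := (hEmem b).2 ⟨hb1, hb2⟩
          constructor
          · rintro (rfl | h)
            · left; left
              exact ⟨Or.inl (hall _ (heE b hbE)), (he b hb1).symm⟩
            · by_cases hbc : b = c a
              · left; left
                rw [hH, mem_sdiff] at h
                exact ⟨Or.inl h.1, hbc⟩
              · right; exact ⟨h, hbc⟩
          · rintro ((⟨h1, h2⟩ | ⟨h1, h2⟩) | ⟨h1, h2⟩)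
            · rcases h1 with h1 | h1
              · by_cases h3 : a ∈ E.image e
                · left
                  obtain ⟨b', hb', rfl⟩ := mem_image.1 h3
                  have h4 := he b' ((hEmem b').1 hb').1
                  rw [h4] at h2
                  rw [h2]
                · right
                  rw [hH, mem_sdiff]
                  exact ⟨h1, h3⟩
              · rw [h1] at h2
                exact absurd h2 hb2
            · exact absurd h2 hb1
            · right; exact h1
      · intro b
        show (if b = cs ∨ b = c a0 then insert a0 H else insert (e b) H).card % r = 1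
        by_cases hb : b = cs ∨ b = c a0
        · rw [if_pos hb, card_insert_of_notMem]
          · exact hHmod
          · rw [hH, mem_sdiff]
            exact fun h => ha0 h.1
        · rw [if_neg hb, card_insert_of_notMem]
          · exact hHmod
          · rw [hH, mem_sdiff]
            intro h
            apply h.2
            refine mem_image_of_mem e ((hEmem b).2 ⟨fun h => hb (Or.inl h), fun h => hb (Or.inr h)⟩)
    · -- two spare columns
      have hS2 : 2 ≤ S.card := by
        have h1 : 0 < S.card := card_pos.2 (nonempty_iff_ne_empty.2 hS0)
        have h2 : (Q'.card + 2) % r = 1 % r := by rw [hQ', h1r]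
        have h3 : (Q'.card + 1) % r = 0 := by
          have h4 : (Q'.card + 1 + 1) ≡ (0 + 1) [MOD r] := h2
          have h5 := Nat.ModEq.add_right_cancel' 1 h4
          simpa [Nat.ModEq] using h5
        have h4 : S.card % r = 0 := by
          have h5 : (S.card + (Q'.card + 1)) % r = 0 := by
            rw [← add_assoc, hScard]
            exact hM
          rw [Nat.add_mod, h3, add_zero, Nat.mod_mod] at h5
          exact h5
        have h5 : r ≤ S.card := Nat.le_of_dvd h1 (Nat.dvd_of_mod_eq_zero h4)
        omega
      obtain ⟨x, hx, x', hx', hxx⟩ := one_lt_card.1 (by omega : 1 < S.card)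
      rw [hS, mem_sdiff, mem_erase] at hx hx'
      obtain ⟨⟨hx1, -⟩, hx2⟩ := hx
      obtain ⟨⟨hx1', -⟩, hx2'⟩ := hx'
      refine ⟨insert x (insert x' Q'),
        fun a => if a = x then c a0 else if a = x' then cs else c a,
        fun b => if b = cs then insert a0 (insert x Q')
          else if b = c a0 then insert a0 (insert x' Q') else insert x (insert x' Q'), ?_, ?_, ?_⟩
      · rintro a ha b hb (⟨h1, h2⟩ | ⟨h1, h2⟩)
        · by_cases h3 : a = x
          · subst h3
            rcases h1 with h1 | h1
            · exact hx2 h1
            · exact hx1 h1
          · by_cases h4 : a = x'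
            · subst h4
              rcases h1 with h1 | h1
              · exact hx2' h1
              · exact hx1' h1
            · simp only [if_neg h3, if_neg h4] at hb
              exact hb h2
        · subst h1
          simp only [mem_insert] at ha
          rcases ha with h | h | h
          · exact hx1 h.symm
          · exact hx1' h.symm
          · exact ha0 h
      · intro b a
        have hcc : c a0 ≠ cs := hcne a0
        have hca : c a ≠ cs := hcne a
        by_cases h1 : b = cs
        · subst h1
          by_cases ha1 : a = x
          · subst ha1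
            simp [hx1, hcc.symm]
          · by_cases ha2 : a = x'
            · subst ha2
              simp [hx1', hx2', ha1, Ne.symm hca]
            · by_cases ha3 : a = a0
              · subst ha3
                simp
              · simp [ha1, ha2, ha3, Ne.symm hca]
        · by_cases h2 : b = c a0
          · subst h2
            by_cases ha1 : a = x
            · subst ha1
              simp [hx1, hx2, hxx, h1]
            · by_cases ha2 : a = x'
              · subst ha2
                simp [hx1', hx2', ha1, h1]
              · by_cases ha3 : a = a0
                · subst ha3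
                  simp [h1]
                · simp [ha1, ha2, ha3, h1]
                  tauto
          · by_cases ha1 : a = x
            · subst ha1
              simp [hx1, hx2, h1, h2]
            · by_cases ha2 : a = x'
              · subst ha2
                simp [hx1', hx2', ha1, h1, h2]
              · by_cases ha3 : a = a0
                · subst ha3
                  simp [h1, h2, ha1, ha2, ha0]
                · simp [ha1, ha2, ha3, h1, h2]
                  tauto
      · intro b
        show (if b = cs then insert a0 (insert x Q')
          else if b = c a0 then insert a0 (insert x' Q') else insert x (insert x' Q')).card % r = 1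
        split_ifs
        · rw [card_insert_of_notMem, card_insert_of_notMem hx2]
          · exact hQ'
          · rw [mem_insert]
            rintro (h | h)
            · exact hx1 h.symm
            · exact ha0 h
        · rw [card_insert_of_notMem, card_insert_of_notMem hx2']
          · exact hQ'
          · rw [mem_insert]
            rintro (h | h)
            · exact hx1' h.symm
            · exact ha0 h
        · rw [card_insert_of_notMem, card_insert_of_notMem hx2']
          · exact hQ'
          · rw [mem_insert]
            rintro (h | h)
            · exact hxx h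
            · exact hx2 h
  · -- constant slice
    set cs : Fin (r + 1) := Fin.last r with hcs
    have hcs0 : cs ≠ 0 := by
      rw [hcs]
      intro h
      have := congrArg Fin.val h
      simp at this
      omega
    refine good_step_aux g hg hG a0 (fun _ => 0) cs hcs0 (fun Q' ha0 hQ' => ?_)
    obtain ⟨x, hx1, hx2⟩ : ∃ x, x ≠ a0 ∧ x ∉ Q' := by
      by_contra hcon
      push Not at hcon
      have h1 : (univ : Finset α) = insert a0 Q' := by
        ext a
        simp only [mem_univ, mem_insert, true_iff]
        by_cases h : a = a0
        · left; exact h
        · right; exact hcon a h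
      have h2 : Fintype.card α = Q'.card + 1 := by
        rw [← card_univ, h1, card_insert_of_notMem ha0]
      apply hM
      rw [h2]
      have h2 : (Q'.card + 2) % r = 1 % r := by rw [hQ', h1r]
      have h4 : (Q'.card + 1 + 1) ≡ (0 + 1) [MOD r] := h2
      have h5 := Nat.ModEq.add_right_cancel' 1 h4
      simpa [Nat.ModEq] using h5
    refine ⟨{x}, fun _ => cs,
      fun b => if b = cs then {a0} else if b = 0 then insert x (insert a0 Q') else {x}, ?_, ?_, ?_⟩
    · rintro a ha b hb (⟨h1, h2⟩ | ⟨h1, h2⟩)
      · rw [mem_singleton] at ha
        subst ha
        rcases h1 with h1 | h1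
        · exact hx2 h1
        · exact hx1 h1
      · exact hb h2
    · intro b a
      by_cases h1 : b = cs
      · subst h1
        simp [hcs0]
      · by_cases h2 : b = 0
        · subst h2
          simp [h1]
          tauto
        · simp [h1, h2]
    · intro b
      show (if b = cs then {a0} else if b = 0 then insert x (insert a0 Q') else {x}).card % r = 1
      split_ifs
      · rw [card_singleton]
        exact h1r
      · rw [card_insert_of_notMem, card_insert_of_notMem ha0]
        · exact hQ'
        · rw [mem_insert]
          rintro (h | h)
          · exact hx1 h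
          · exact hx2 h
      · rw [card_singleton]
        exact h1r

theorem good_all {r : ℕ} (hr : 2 ≤ r) (β : Type) [Fintype β] : Good r β := by
  have h : ∀ n : ℕ, ∃ (α : Type) (_ : Fintype α), Fintype.card α = n + 1 ∧ Good r α := by
    intro n
    induction n with
    | zero => exact ⟨Unit, inferInstance, by simp, good_unit⟩
    | succ n ih =>
      obtain ⟨α, hα, hc, hg⟩ := ih
      have : Nonempty α := Fintype.card_pos_iff.1 (by omega)
      exact ⟨Option α, inferInstance, by rw [Fintype.card_option, hc], good_step hr hg⟩
  obtain ⟨α, hα, hc, hg⟩ := h (Fintype.card β)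
  obtain ⟨e⟩ := Function.Embedding.nonempty_of_card_le (α := β) (β := α) (by omega)
  exact good_of_embedding hg e

end Pool.Agent.W361.Tile
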