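import Pool.Agent.W361.Tile.Basic

/-!
Reducing the number of labels by one in three times as many dimensions.
-/

set_option autoImplicit false

namespace Pool.Agent.W361.Tile

open Finset

/-- a labelling by `r`-element subsets of `{0, …, K-1}` with tileable label classes -/
def Lab {X : Type} (𝒯 : Set (Set X)) (K r : ℕ) : Prop :=
  ∃ L : X → Finset ℕ, (∀ x, (L x).card = r ∧ L x ⊆ range K) ∧ ∀ c, Tl 𝒯 {x | c ∈ L x}

/-- admissible triples of label sets -/
def Ok (K r : ℕ) (w : Fin 3 → Finset ℕ) : Prop := ∀ i, (w i).card = r ∧ w i ⊆ range K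

theorem lab_strand {X : Type} {𝒯 : Set (Set X)} {K r k : ℕ} (h : Lab 𝒯 K r)
    (dir : ℕ → (Fin 3 → Finset ℕ) → Fin 3) (lab : ℕ → (Fin 3 → Finset ℕ) → ℕ)
    (ha : ∀ w, Ok K r w → ∀ c ∈ w 0, c ∈ w (dir c w))
    (hb : ∀ w w', Ok K r w → Ok K r w' → ∀ c ∈ w 0, c ∈ w' (dir c w) →
      (∀ j, j ≠ dir c w → w' j = w j) → dir c w' = dir c w ∧ lab c w' = lab c w)
    (hinj : ∀ w, Ok K r w → ∀ c ∈ w 0, ∀ c' ∈ w 0, lab c w = lab c' w → c = c')
    (hlt : ∀ w, Ok K r w → ∀ c ∈ w 0, lab c w < k) :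
    Lab (line (Fin 3) 𝒯) k r := by
  classical
  obtain ⟨L, hL, hT⟩ := h
  have hok : ∀ y : Fin 3 → X, Ok K r (fun i => L (y i)) := fun y i => hL (y i)
  refine ⟨fun y => (L (y 0)).image (fun c => lab c (fun i => L (y i))), fun y => ⟨?_, ?_⟩, ?_⟩
  · rw [card_image_of_injOn]
    · exact (hL _).1
    · intro c hc c' hc' heq
      exact hinj _ (hok y) c hc c' hc' heq
  · intro l hl
    obtain ⟨c, hc, rfl⟩ := mem_image.1 hl
    exact mem_range.2 (hlt _ (hok y) c hc)
  · intro l
    have hcol : ∀ y : Fin 3 → X, ∃ c, (∃ c' ∈ L (y 0), lab c' (fun i => L (y i)) = l) →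
        (c ∈ L (y 0) ∧ lab c (fun i => L (y i)) = l) := by
      intro y
      by_cases h : ∃ c' ∈ L (y 0), lab c' (fun i => L (y i)) = l
      · obtain ⟨c, hc⟩ := h
        exact ⟨c, fun _ => hc⟩
      · exact ⟨0, fun h' => absurd h' h⟩
    choose col hcol using hcol
    have hmem : ∀ y : Fin 3 → X, y ∈ {y : Fin 3 → X | l ∈ (L (y 0)).image
        (fun c => lab c (fun i => L (y i)))} ↔
        (∃ c' ∈ L (y 0), lab c' (fun i => L (y i)) = l) := by
      intro y
      exact mem_image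
    refine tl_assign (fun y => dir (col y) (fun i => L (y i))) (fun y => {x | col y ∈ L x})
      ?_ ?_ ?_
    · intro y hy
      exact ha _ (hok y) _ (hcol y ((hmem y).1 hy)).1
    · intro y _
      exact hT _
    · intro y hy z hz1 hz2
      obtain ⟨g1, g2⟩ := hcol y ((hmem y).1 hy)
      obtain ⟨g3, g4⟩ := hb (fun i => L (y i)) (fun i => L (z i)) (hok y) (hok z) (col y) g1 hz1
        (fun j hj => congrArg L (hz2 j hj))
      have g5 : col y ∈ L (z 0) := by
        by_cases h0 : (0 : Fin 3) = dir (col y) (fun i => L (y i))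
        · have := hz1
          rw [← h0] at this
          exact this
        · rw [hz2 0 h0]
          exact g1
      have g6 : ∃ c' ∈ L (z 0), lab c' (fun i => L (z i)) = l := ⟨col y, g5, g4.trans g2⟩
      have g7 : col z = col y := by
        obtain ⟨g8, g9⟩ := hcol z g6
        exact hinj _ (hok z) _ g8 _ g5 (g9.trans (g4.trans g2).symm)
      refine ⟨(hmem z).2 g6, ?_, ?_⟩
      · show dir (col z) (fun i => L (z i)) = dir (col y) (fun i => L (y i))
        rw [g7]
        exact g3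
      · show {x | col z ∈ L x} = {x | col y ∈ L x}
        rw [g7]

theorem exists_inj (s t : Finset ℕ) (h : s.card ≤ t.card) :
    ∃ f : ℕ → ℕ, (∀ x ∈ s, ∀ y ∈ s, f x = f y → x = y) ∧ ∀ x ∈ s, f x ∈ t := by
  classical
  obtain ⟨e⟩ := Function.Embedding.nonempty_of_card_le (α := s) (β := t)
    (by rw [Fintype.card_coe, Fintype.card_coe]; exact h)
  refine ⟨fun x => if hx : x ∈ s then (e ⟨x, hx⟩ : ℕ) else 0, ?_, ?_⟩
  · intro x hx y hy heq
    simp only [dif_pos hx, dif_pos hy] at heq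
    have := e.injective (Subtype.ext heq)
    exact congrArg Subtype.val this
  · intro x hx
    simp only [dif_pos hx]
    exact (e ⟨x, hx⟩).2

/-- the replacement labels -/
theorem exists_g {k r : ℕ} (hr : 2 ≤ r) (hk : r + 1 ≤ k) (C : Finset ℕ) (hC : C ⊆ range k)
    (hCc : C.card = k - r) :
    ∃ g : Finset ℕ → ℕ → ℕ, ∀ B : Finset ℕ, B.card = r → B ⊆ range (k + 1) → k ∈ B →
      (∀ x ∈ B, (x ∈ C ∨ x = k) → g B x < k ∧ g B x ∉ B ∧ g B x ∉ C) ∧
      (∀ x ∈ B, ∀ y ∈ B, (x ∈ C ∨ x = k) → (y ∈ C ∨ y = k) → g B x = g B y → x = y) := by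
  have key : ∀ B : Finset ℕ, ∃ f : ℕ → ℕ, B.card = r → B ⊆ range (k + 1) → k ∈ B →
      (∀ x ∈ B, (x ∈ C ∨ x = k) → f x < k ∧ f x ∉ B ∧ f x ∉ C) ∧
      (∀ x ∈ B, ∀ y ∈ B, (x ∈ C ∨ x = k) → (y ∈ C ∨ y = k) → f x = f y → x = y) := by
    intro B
    by_cases hB : B.card = r ∧ B ⊆ range (k + 1) ∧ k ∈ B
    · obtain ⟨h1, h2, h3⟩ := hB
      have hkC : k ∉ C := fun h => by simpa using hC h
      have hBC : (insert k (C ∩ B)).card ≤ (range k \ (B.erase k ∪ C)).card := by
        have e1 : (insert k (C ∩ B)).card = (C ∩ B).card + 1 :=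
          card_insert_of_notMem (fun h => hkC (mem_inter.1 h).1)
        have e2 : B.erase k ∪ C ⊆ range k := by
          intro x hx
          rcases mem_union.1 hx with h | h
          · have h4 := mem_range.1 (h2 (mem_of_mem_erase h))
            have h5 := ne_of_mem_erase h
            rw [mem_range]
            omega
          · exact hC h
        have e3 := card_sdiff_add_card_eq_card e2
        rw [card_range] at e3
        have e4 := card_union_add_card_inter (B.erase k) C
        rw [card_erase_of_mem h3, h1, hCc] at e4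
        have e5 : B.erase k ∩ C = C ∩ B := by
          ext x
          rw [mem_inter, mem_inter, mem_erase]
          constructor
          · rintro ⟨⟨_, a⟩, b⟩
            exact ⟨b, a⟩
          · rintro ⟨a, b⟩
            exact ⟨⟨fun h => hkC (h ▸ a), b⟩, a⟩
        rw [e5] at e4
        omega
      obtain ⟨f, hf1, hf2⟩ := exists_inj _ _ hBC
      have hin : ∀ x ∈ B, (x ∈ C ∨ x = k) → x ∈ insert k (C ∩ B) := by
        rintro x hx (h | h)
        · exact mem_insert_of_mem (mem_inter.2 ⟨h, hx⟩)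
        · rw [h]
          exact mem_insert_self _ _
      refine ⟨f, fun _ _ _ => ⟨fun x hx hx' => ?_, fun x hx y hy hx' hy' => ?_⟩⟩
      · have := hf2 x (hin x hx hx')
        rw [mem_sdiff, mem_union, mem_erase, mem_range] at this
        refine ⟨this.1, fun hb => this.2 (Or.inl ⟨by omega, hb⟩), fun hc => this.2 (Or.inr hc)⟩
      · exact hf1 x (hin x hx hx') y (hin y hy hy')
    · exact ⟨id, fun h1 h2 h3 => absurd ⟨h1, h2, h3⟩ hB⟩
  choose g hg using key
  exact ⟨g, hg⟩

end Pool.Agent.W361.Tile
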